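import Mathlib

set_option autoImplicit false

/-!
# Self-avoiding walks and loops (MP_69df71_pr): definitions
-/

namespace Pool.Agent.SAWL

variable {V : Type}

/-- The number of walks of length `n` from `u` to `v`. -/
noncomputable def wk (G : SimpleGraph V) (n : ℕ) (u v : V) : ℕ :=
  ({p : G.Walk u v | p.length = n} : Set (G.Walk u v)).ncard

/-- The number of self-avoiding walks of length `n` from `v`. -/
noncomputable def saw (G : SimpleGraph V) (n : ℕ) (v : V) : ℕ :=
  ({p : Σ w : V, G.Walk v w | p.2.IsPath ∧ p.2.length = n} : Set (Σ w : V, G.Walk v w)).ncard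

/-- The number of self-avoiding loops of length `n` rooted at `v`. -/
noncomputable def sal (G : SimpleGraph V) (n : ℕ) (v : V) : ℕ :=
  ({c : G.Walk v v | c.IsCycle ∧ c.length = n} : Set (G.Walk v v)).ncard

/-- The number of edges leaving the finite set `S`. -/
noncomputable def bdry (G : SimpleGraph V) (S : Finset V) : ℕ :=
  ({p : V × V | p.1 ∈ S ∧ p.2 ∉ S ∧ G.Adj p.1 p.2} : Set (V × V)).ncard

/-- The `k`-th power of `G`: two distinct vertices are joined when their distance is at most `k`. -/
def pw (G : SimpleGraph V) (k : ℕ) : SimpleGraph V where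
  Adj x y := x ≠ y ∧ G.dist x y ≤ k
  symm := ⟨fun x y h => ⟨h.1.symm, by rw [SimpleGraph.dist_comm]; exact h.2⟩⟩
  loopless := ⟨fun _ h => h.1 rfl⟩

/-- The ball of radius `k` about `v`. -/
def ball (G : SimpleGraph V) (k : ℕ) (v : V) : Set V := {x | G.dist v x ≤ k}

end Pool.Agent.SAWL
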