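import Mathlib
import Pool.Agent.SAWL.Defs

set_option autoImplicit false

namespace Pool.Agent.SAWL

open scoped Classical

variable {V : Type}

theorem coa_bdry_le (G : SimpleGraph V) [G.LocallyFinite] (P : Finset V) :
    bdry G P ≤ ∑ x ∈ P, ((G.neighborFinset x).filter (fun y => y ∉ P)).card := by
  have h1 : ({p : V × V | p.1 ∈ P ∧ p.2 ∉ P ∧ G.Adj p.1 p.2} : Set (V × V)) ⊆
      ↑((P.sigma (fun x => (G.neighborFinset x).filter (fun y => y ∉ P))).image
        (fun s => (s.1, s.2))) := by
    rintro ⟨x, y⟩ ⟨hx, hy, hxy⟩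
    simp only [Finset.coe_image, Set.mem_image, Finset.mem_coe, Finset.mem_sigma,
      Finset.mem_filter, SimpleGraph.mem_neighborFinset]
    exact ⟨⟨x, y⟩, ⟨hx, hxy, hy⟩, rfl⟩
  unfold bdry
  refine (Set.ncard_le_ncard h1 (Finset.finite_toSet _)).trans ?_
  rw [Set.ncard_coe_finset]
  refine Finset.card_image_le.trans ?_
  rw [Finset.card_sigma]

theorem coa_ind (G : SimpleGraph V) [G.LocallyFinite] (P T : Finset V)
    (hPT : P ⊆ T) (hT : ∀ x ∈ P, G.neighborFinset x ⊆ T) :
    2 * (bdry G P : ℝ) ≤ ∑ x ∈ T, ∑ y ∈ G.neighborFinset x,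
      |(if x ∈ P then (1 : ℝ) else 0) - (if y ∈ P then (1 : ℝ) else 0)| := by
  have hB : (bdry G P : ℝ) ≤ ∑ x ∈ P, ∑ y ∈ G.neighborFinset x, (if y ∉ P then (1 : ℝ) else 0) := by
    have := coa_bdry_le G P
    calc (bdry G P : ℝ) ≤ ((∑ x ∈ P, ((G.neighborFinset x).filter (fun y => y ∉ P)).card : ℕ) : ℝ) := by
          exact_mod_cast this
      _ = ∑ x ∈ P, ∑ y ∈ G.neighborFinset x, (if y ∉ P then (1 : ℝ) else 0) := by
          push_cast
          refine Finset.sum_congr rfl fun x _ => ?_
          rw [Finset.sum_boole]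
  have hpt : ∀ x y : V, |(if x ∈ P then (1 : ℝ) else 0) - (if y ∈ P then (1 : ℝ) else 0)| =
      (if x ∈ P then (if y ∉ P then (1 : ℝ) else 0) else 0) +
      (if y ∈ P then (if x ∉ P then (1 : ℝ) else 0) else 0) := by
    intro x y
    by_cases hx : x ∈ P <;> by_cases hy : y ∈ P <;> simp [hx, hy]
  have e : ∑ x ∈ T, ∑ y ∈ G.neighborFinset x,
      |(if x ∈ P then (1 : ℝ) else 0) - (if y ∈ P then (1 : ℝ) else 0)| =
      (∑ x ∈ T, ∑ y ∈ G.neighborFinset x, (if x ∈ P then (if y ∉ P then (1 : ℝ) else 0) else 0)) +
      ∑ x ∈ T, ∑ y ∈ G.neighborFinset x, (if y ∈ P then (if x ∉ P then (1 : ℝ) else 0) else 0) := by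
    rw [← Finset.sum_add_distrib]
    refine Finset.sum_congr rfl fun x _ => ?_
    rw [← Finset.sum_add_distrib]
    exact Finset.sum_congr rfl fun y _ => hpt x y
  have e1 : (∑ x ∈ T, ∑ y ∈ G.neighborFinset x,
      (if x ∈ P then (if y ∉ P then (1 : ℝ) else 0) else 0)) =
      ∑ x ∈ P, ∑ y ∈ G.neighborFinset x, (if y ∉ P then (1 : ℝ) else 0) := by
    rw [← Finset.sum_subset hPT]
    · refine Finset.sum_congr rfl fun x hx => ?_
      refine Finset.sum_congr rfl fun y _ => ?_
      rw [if_pos hx]
    · intro x _ hx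
      refine Finset.sum_eq_zero fun y _ => ?_
      rw [if_neg hx]
  have e2 : (∑ x ∈ T, ∑ y ∈ G.neighborFinset x,
      (if y ∈ P then (if x ∉ P then (1 : ℝ) else 0) else 0)) =
      ∑ y ∈ P, ∑ x ∈ G.neighborFinset y, (if x ∉ P then (1 : ℝ) else 0) := by
    have e3 : ∀ x ∈ T, ∑ y ∈ G.neighborFinset x,
        (if y ∈ P then (if x ∉ P then (1 : ℝ) else 0) else 0) =
        ∑ y ∈ (G.neighborFinset x).filter (fun y => y ∈ P), (if x ∉ P then (1 : ℝ) else 0) := by
      intro x _
      rw [Finset.sum_filter]
    rw [Finset.sum_congr rfl e3]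
    refine Finset.sum_comm' ?_
    intro x y
    simp only [Finset.mem_filter, SimpleGraph.mem_neighborFinset]
    constructor
    · rintro ⟨_, hxy, hy⟩
      exact ⟨hxy.symm, hy⟩
    · rintro ⟨hyx, hy⟩
      exact ⟨hT y hy (by simpa using hyx), hyx.symm, hy⟩
  rw [e, e1, e2]
  linarith

/-- Co-area inequality. -/
theorem coarea (G : SimpleGraph V) [G.LocallyFinite] (h : ℝ) (h0 : 0 ≤ h)
    (iso : ∀ S : Finset V, S.Nonempty → h * (S.card : ℝ) ≤ (bdry G S : ℝ))
    (S T : Finset V) (hST : S ⊆ T) (hT : ∀ x ∈ S, G.neighborFinset x ⊆ T)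
    (g : V → ℝ) (g0 : ∀ x, 0 ≤ g x) (hg : ∀ x, x ∉ S → g x = 0) :
    2 * h * ∑ x ∈ S, g x ≤ ∑ x ∈ T, ∑ y ∈ G.neighborFinset x, |g x - g y| := by
  -- induction on the size of the support
  have key : ∀ n : ℕ, ∀ g : V → ℝ, (∀ x, 0 ≤ g x) → (∀ x, x ∉ S → g x = 0) →
      (S.filter (fun x => g x ≠ 0)).card = n →
      2 * h * ∑ x ∈ S, g x ≤ ∑ x ∈ T, ∑ y ∈ G.neighborFinset x, |g x - g y| := by
    intro n
    induction n using Nat.strong_induction_on with
    | _ n ih =>
      intro g g0 hg hn
      by_cases hP : (S.filter (fun x => g x ≠ 0)).Nonempty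
      · set P := S.filter (fun x => g x ≠ 0) with hPdef
        obtain ⟨x0, hx0, hmin⟩ := Finset.exists_min_image P g hP
        set m := g x0 with hm
        have hmpos : 0 < m := by
          have : g x0 ≠ 0 := (Finset.mem_filter.mp hx0).2
          exact lt_of_le_of_ne (g0 x0) (Ne.symm this)
        have memP : ∀ x, x ∈ P ↔ g x ≠ 0 := by
          intro x
          constructor
          · intro hx; exact (Finset.mem_filter.mp hx).2
          · intro hx
            refine Finset.mem_filter.mpr ⟨?_, hx⟩
            by_contra hxS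
            exact hx (hg x hxS)
        let g' : V → ℝ := fun x => g x - (if x ∈ P then m else 0)
        have g'0 : ∀ x, 0 ≤ g' x := by
          intro x
          by_cases hx : x ∈ P
          · simp only [g', if_pos hx]
            linarith [hmin x hx]
          · simp only [g', if_neg hx]
            linarith [g0 x]
        have hPS : P ⊆ S := Finset.filter_subset _ _
        have hg' : ∀ x, x ∉ S → g' x = 0 := by
          intro x hx
          have hxP : x ∉ P := fun h => hx (hPS h)
          simp only [g', if_neg hxP, hg x hx, sub_zero]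
        have hcard : (S.filter (fun x => g' x ≠ 0)).card < n := by
          rw [← hn]
          refine Finset.card_lt_card ?_
          refine ⟨?_, ?_⟩
          · intro x hx
            rw [Finset.mem_filter] at hx
            rw [memP]
            intro hgx
            apply hx.2
            have hxP : x ∉ P := by rw [memP]; simpa using hgx
            simp only [g', if_neg hxP, hgx, sub_zero]
          · intro hsub
            have := hsub hx0
            rw [Finset.mem_filter] at this
            apply this.2
            simp only [g', if_pos hx0]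
            rw [← hm]; ring
        have hIH := ih _ hcard g' g'0 hg' rfl
        have hsum : ∑ x ∈ S, g x = m * (P.card : ℝ) + ∑ x ∈ S, g' x := by
          simp only [g', Finset.sum_sub_distrib]
          have : ∑ x ∈ S, (if x ∈ P then m else 0) = m * (P.card : ℝ) := by
            rw [← Finset.sum_filter]
            have : S.filter (fun x => x ∈ P) = P := by
              ext x
              simp only [Finset.mem_filter]
              exact ⟨fun h => h.2, fun h => ⟨hPS h, h⟩⟩
            rw [this, Finset.sum_const, nsmul_eq_mul, mul_comm]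
          rw [this]; ring
        have habs : ∀ x y : V, |g x - g y| =
            m * |(if x ∈ P then (1 : ℝ) else 0) - (if y ∈ P then (1 : ℝ) else 0)| +
              |g' x - g' y| := by
          intro x y
          by_cases hx : x ∈ P <;> by_cases hy : y ∈ P
          · simp only [g', if_pos hx, if_pos hy, sub_self, abs_zero, mul_zero, zero_add]
            congr 1; ring
          · have hgy : g y = 0 := by
              by_contra hne; exact hy ((memP y).mpr hne)
            simp only [g', if_pos hx, if_neg hy, hgy, sub_zero, abs_one, mul_one]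
            rw [abs_of_nonneg (g0 x), abs_of_nonneg (by linarith [hmin x hx])]
            ring
          · have hgx : g x = 0 := by
              by_contra hne; exact hx ((memP x).mpr hne)
            simp only [g', if_neg hx, if_pos hy, hgx, sub_zero, zero_sub, abs_neg, abs_one, mul_one]
            rw [abs_of_nonneg (g0 y), abs_of_nonneg (by linarith [hmin y hy])]
            ring
          · simp only [g', if_neg hx, if_neg hy, sub_zero, sub_self, abs_zero, mul_zero, zero_add]
        have hR : ∑ x ∈ T, ∑ y ∈ G.neighborFinset x, |g x - g y| =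
            m * (∑ x ∈ T, ∑ y ∈ G.neighborFinset x,
              |(if x ∈ P then (1 : ℝ) else 0) - (if y ∈ P then (1 : ℝ) else 0)|) +
            ∑ x ∈ T, ∑ y ∈ G.neighborFinset x, |g' x - g' y| := by
          rw [Finset.mul_sum, ← Finset.sum_add_distrib]
          refine Finset.sum_congr rfl fun x _ => ?_
          rw [Finset.mul_sum, ← Finset.sum_add_distrib]
          exact Finset.sum_congr rfl fun y _ => habs x y
        have hind := coa_ind G P T (hPS.trans hST) (fun x hx => hT x (hPS hx))
        have hiso := iso P hP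
        rw [hR, hsum]
        have h3 : 2 * (h * (P.card : ℝ)) ≤ ∑ x ∈ T, ∑ y ∈ G.neighborFinset x,
              |(if x ∈ P then (1 : ℝ) else 0) - (if y ∈ P then (1 : ℝ) else 0)| := by
          linarith
        have h4 := mul_le_mul_of_nonneg_left h3 hmpos.le
        nlinarith [h4, hIH]
      · have hz : ∀ x ∈ S, g x = 0 := by
          intro x hx
          by_contra hne
          exact hP ⟨x, Finset.mem_filter.mpr ⟨hx, hne⟩⟩
        rw [Finset.sum_eq_zero hz, mul_zero]
        exact Finset.sum_nonneg fun x _ => Finset.sum_nonneg fun y _ => abs_nonneg _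
  exact key _ g g0 hg rfl

end Pool.Agent.SAWL
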