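import Mathlib
import Pool.Agent.SAWL.Defs
import Pool.Agent.SAWL.COA

set_option autoImplicit false

namespace Pool.Agent.SAWL

open scoped Classical

variable {V : Type}

theorem CHE_swap (P : Finset (V × V)) (hP : ∀ p, p ∈ P → (p.2, p.1) ∈ P) (F : V → ℝ) :
    ∑ p ∈ P, F p.2 = ∑ p ∈ P, F p.1 := by
  refine Finset.sum_bij' (fun p _ => (p.2, p.1)) (fun p _ => (p.2, p.1)) ?_ ?_ ?_ ?_ ?_
  · intro p hp; exact hP p hp
  · intro p hp; exact hP p hp
  · intro p _; rfl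
  · intro p _; rfl
  · intro p _; rfl

theorem CHE_sum (G : SimpleGraph V) [G.LocallyFinite] (T : Finset V) (F : V → V → ℝ)
    (hF : ∀ x ∈ T, ∀ y, G.Adj x y → y ∉ T → F x y = 0) :
    ∑ x ∈ T, ∑ y ∈ G.neighborFinset x, F x y
      = ∑ p ∈ (T ×ˢ T).filter (fun p => G.Adj p.1 p.2), F p.1 p.2 := by
  rw [Finset.sum_filter, Finset.sum_product]
  refine Finset.sum_congr rfl fun x hx => ?_
  rw [← Finset.sum_filter]
  symm
  apply Finset.sum_subset_zero_on_sdiff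
  · intro y hy
    rw [Finset.mem_filter] at hy
    rw [SimpleGraph.mem_neighborFinset]
    exact hy.2
  · intro y hy
    rw [Finset.mem_sdiff, SimpleGraph.mem_neighborFinset, Finset.mem_filter] at hy
    refine hF x hx y hy.1 ?_
    intro hyT
    exact hy.2 ⟨hyT, hy.1⟩
  · intro y _
    rfl

/-- Cheeger inequality for the adjacency form. -/
theorem cheeger (G : SimpleGraph V) [G.LocallyFinite] (d : ℕ) (hd : ∀ v, G.degree v = d)
    (h : ℝ) (h0 : 0 ≤ h)
    (iso : ∀ S : Finset V, S.Nonempty → h * (S.card : ℝ) ≤ (bdry G S : ℝ))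
    (S : Finset V) (f : V → ℝ) (hf : ∀ x, x ∉ S → f x = 0) :
    (∑ x ∈ S, f x * ∑ y ∈ G.neighborFinset x, f y) ^ 2
      ≤ ((d : ℝ) ^ 2 - h ^ 2) * (∑ x ∈ S, f x ^ 2) ^ 2 := by
  set T : Finset V := S ∪ S.biUnion (fun x => G.neighborFinset x) with hTdef
  have hST : S ⊆ T := Finset.subset_union_left
  have hNT : ∀ x ∈ S, G.neighborFinset x ⊆ T := by
    intro x hx y hy
    exact Finset.mem_union_right _ (Finset.mem_biUnion.2 ⟨x, hx, hy⟩)
  have hout : ∀ x ∈ T, ∀ y, G.Adj x y → y ∉ T → f x = 0 ∧ f y = 0 := by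
    intro x _ y hxy hy
    refine ⟨hf x ?_, hf y (fun hyS => hy (hST hyS))⟩
    intro hxS
    exact hy (hNT x hxS (by rw [SimpleGraph.mem_neighborFinset]; exact hxy))
  set P : Finset (V × V) := (T ×ˢ T).filter (fun p => G.Adj p.1 p.2) with hP
  have hPsymm : ∀ p, p ∈ P → (p.2, p.1) ∈ P := by
    intro p hp
    rw [hP, Finset.mem_filter, Finset.mem_product] at hp ⊢
    exact ⟨⟨hp.1.2, hp.1.1⟩, hp.2.symm⟩
  -- the form
  have hq : ∑ p ∈ P, f p.1 * f p.2 = ∑ x ∈ S, f x * ∑ y ∈ G.neighborFinset x, f y := by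
    have h1 := CHE_sum G T (fun x y => f x * f y) (by
      intro x hx y hxy hy
      rw [(hout x hx y hxy hy).1, zero_mul])
    rw [hP, ← h1]
    symm
    rw [show (∑ x ∈ S, f x * ∑ y ∈ G.neighborFinset x, f y)
      = ∑ x ∈ S, ∑ y ∈ G.neighborFinset x, f x * f y from
      Finset.sum_congr rfl fun x _ => Finset.mul_sum _ _ _]
    apply Finset.sum_subset hST
    intro x _ hx
    apply Finset.sum_eq_zero
    intro y _
    rw [hf x hx, zero_mul]
  have hn : ∑ p ∈ P, f p.1 ^ 2 = (d : ℝ) * ∑ x ∈ S, f x ^ 2 := by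
    have h1 := CHE_sum G T (fun x y => f x ^ 2) (by
      intro x hx y hxy hy
      rw [(hout x hx y hxy hy).1]
      norm_num)
    rw [hP, ← h1, Finset.mul_sum]
    symm
    rw [show (∑ x ∈ S, (d : ℝ) * f x ^ 2)
      = ∑ x ∈ S, ∑ y ∈ G.neighborFinset x, f x ^ 2 from
      Finset.sum_congr rfl fun x _ => by
        rw [Finset.sum_const, SimpleGraph.card_neighborFinset_eq_degree, hd, nsmul_eq_mul]]
    apply Finset.sum_subset hST
    intro x _ hx
    apply Finset.sum_eq_zero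
    intro y _
    rw [hf x hx]
    norm_num
  have hn' : ∑ p ∈ P, f p.2 ^ 2 = (d : ℝ) * ∑ x ∈ S, f x ^ 2 := by
    rw [← hn]
    exact CHE_swap P hPsymm (fun x => f x ^ 2)
  set q : ℝ := ∑ x ∈ S, f x * ∑ y ∈ G.neighborFinset x, f y with hqdef
  set n2 : ℝ := ∑ x ∈ S, f x ^ 2 with hn2def
  have hminus : ∑ p ∈ P, (|f p.1 - f p.2|) ^ 2 = 2 * d * n2 - 2 * q := by
    have : ∀ p ∈ P, (|f p.1 - f p.2|) ^ 2 = f p.1 ^ 2 + f p.2 ^ 2 - 2 * (f p.1 * f p.2) := by
      intro p _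
      rw [sq_abs]
      ring
    rw [Finset.sum_congr rfl this, Finset.sum_sub_distrib, Finset.sum_add_distrib,
      ← Finset.mul_sum, hn, hn', hq]
    ring
  have hplus : ∑ p ∈ P, (|f p.1 + f p.2|) ^ 2 = 2 * d * n2 + 2 * q := by
    have : ∀ p ∈ P, (|f p.1 + f p.2|) ^ 2 = f p.1 ^ 2 + f p.2 ^ 2 + 2 * (f p.1 * f p.2) := by
      intro p _
      rw [sq_abs]
      ring
    rw [Finset.sum_congr rfl this, Finset.sum_add_distrib, Finset.sum_add_distrib,
      ← Finset.mul_sum, hn, hn', hq]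
    ring
  have hco : 2 * h * n2 ≤ ∑ p ∈ P, |f p.1 - f p.2| * |f p.1 + f p.2| := by
    have h1 := coarea G h h0 iso S T hST hNT (fun x => f x ^ 2) (fun x => sq_nonneg _)
      (fun x hx => by rw [hf x hx]; norm_num)
    have h2 := CHE_sum G T (fun x y => |f x ^ 2 - f y ^ 2|) (by
      intro x hx y hxy hy
      rw [(hout x hx y hxy hy).1, (hout x hx y hxy hy).2]
      simp)
    have h3 : ∑ p ∈ P, |f p.1 - f p.2| * |f p.1 + f p.2|
        = ∑ p ∈ P, |f p.1 ^ 2 - f p.2 ^ 2| := by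
      refine Finset.sum_congr rfl fun p _ => ?_
      rw [← abs_mul]
      congr 1
      ring
    rw [h3, hP, ← h2]
    exact h1
  have hcs := Finset.sum_mul_sq_le_sq_mul_sq P (fun p => |f p.1 - f p.2|)
    (fun p => |f p.1 + f p.2|)
  rw [hminus, hplus] at hcs
  have hn2 : 0 ≤ n2 := Finset.sum_nonneg fun x _ => sq_nonneg _
  have hsq : (2 * h * n2) ^ 2 ≤ (∑ p ∈ P, |f p.1 - f p.2| * |f p.1 + f p.2|) ^ 2 :=
    pow_le_pow_left₀ (by positivity) hco 2
  nlinarith [hsq, hcs]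

end Pool.Agent.SAWL
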