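import Mathlib
import Pool.Agent.SAWL.Defs

set_option autoImplicit false

namespace Pool.Agent.SAWL

open scoped Classical

variable {V : Type}

/-- Growth lemma (real analysis only). -/
theorem growth (c w : ℕ → ℝ) (d lam b : ℝ) (hc0 : c 0 = 1) (hc : ∀ n, 0 ≤ c n)
    (hd : 0 ≤ d) (hlam : 0 ≤ lam) (hb : lam < b) (hdb : d ≤ (d - b) * (b - lam))
    (hw : ∀ m, w (m + 2) ≤ d * lam ^ m)
    (hrec : ∀ n, d * c n ≤ c (n + 1) + ∑ j ∈ Finset.Icc 1 n, w (j + 1) * c (n - j)) :
    ∀ n, b ^ n ≤ c n := by
  have hb0 : 0 < b := lt_of_le_of_lt hlam hb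
  have hbl : 0 < b - lam := sub_pos.2 hb
  -- the auxiliary sums
  let s : ℕ → ℝ := fun n => ∑ j ∈ Finset.range n, lam ^ j * c (n - (j + 1))
  have hs0 : s 0 = 0 := by simp [s]
  have hs1 : ∀ n, s (n + 1) = c n + lam * s n := by
    intro n
    simp only [s]
    rw [Finset.sum_range_succ']
    rw [Finset.mul_sum, add_comm]
    have h1 : n + 1 - (0 + 1) = n := by omega
    rw [h1, pow_zero, one_mul]
    congr 1
    refine Finset.sum_congr rfl ?_
    intro j _
    have h2 : n + 1 - (j + 1 + 1) = n - (j + 1) := by omega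
    rw [h2, pow_succ]
    ring
  have hsum : ∀ n, ∑ j ∈ Finset.Icc 1 n, w (j + 1) * c (n - j) ≤ d * s n := by
    intro n
    have h1 : Finset.Icc 1 n = Finset.Ico (0 + 1) (n + 1) := by
      ext j
      simp only [Finset.mem_Icc, Finset.mem_Ico]
      omega
    rw [h1, ← Finset.sum_Ico_add' (fun j => w (j + 1) * c (n - j)) 0 n 1]
    rw [← Finset.range_eq_Ico, Finset.mul_sum]
    refine Finset.sum_le_sum ?_
    intro j _
    have h3 : w (j + 1 + 1) ≤ d * lam ^ j := hw j
    calc w (j + 1 + 1) * c (n - (j + 1)) ≤ (d * lam ^ j) * c (n - (j + 1)) :=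
          mul_le_mul_of_nonneg_right h3 (hc _)
      _ = d * (lam ^ j * c (n - (j + 1))) := by ring
  have step : ∀ n, (b - lam) * s n ≤ c n → b * c n ≤ c (n + 1) := by
    intro n hn
    have h1 := hrec n
    have h2 := hsum n
    have h3 : d * c n - d * s n ≤ c (n + 1) := by linarith
    -- multiply by b - lam
    have h4 : (b - lam) * (b * c n) ≤ (b - lam) * (d * c n - d * s n) := by
      have h5 : d * ((b - lam) * s n) ≤ d * c n := mul_le_mul_of_nonneg_left hn hd
      have h6 : d * c n ≤ (d - b) * (b - lam) * c n := mul_le_mul_of_nonneg_right hdb (hc n)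
      nlinarith
    have h7 : b * c n ≤ d * c n - d * s n := le_of_mul_le_mul_left h4 hbl
    linarith
  have main : ∀ n, (b - lam) * s n ≤ c n := by
    intro n
    induction n with
    | zero => rw [hs0, hc0]; simp
    | succ n ih =>
      have h1 := step n ih
      rw [hs1]
      have h2 : lam * ((b - lam) * s n) ≤ lam * c n := mul_le_mul_of_nonneg_left ih hlam
      nlinarith
  intro n
  induction n with
  | zero => rw [pow_zero, hc0]
  | succ n ih =>
    have h1 := step n (main n)
    calc b ^ (n + 1) = b * b ^ n := by ring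
      _ ≤ b * c n := mul_le_mul_of_nonneg_left ih hb0.le
      _ ≤ c (n + 1) := h1

end Pool.Agent.SAWL
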