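import Mathlib
import Pool.Agent.SAWL.Defs

set_option autoImplicit false

namespace Pool.Agent.SAWL

open scoped Classical

variable {V : Type}

private theorem WLK_card (G : SimpleGraph V) [G.LocallyFinite] (n : ℕ) (u v : V) :
    wk G n u v = (G.finsetWalkLength n u v).card := by
  unfold wk
  rw [← SimpleGraph.coe_finsetWalkLength_eq, Set.ncard_coe_finset]

theorem wk_finite (G : SimpleGraph V) [G.LocallyFinite] (n : ℕ) (u v : V) :
    ({p : G.Walk u v | p.length = n} : Set (G.Walk u v)).Finite := by
  rw [← SimpleGraph.coe_finsetWalkLength_eq]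
  exact Finset.finite_toSet _

theorem wk_zero (G : SimpleGraph V) (u v : V) : wk G 0 u v = if u = v then 1 else 0 := by
  unfold wk
  split_ifs with h
  · subst h
    rw [SimpleGraph.Walk.setOfPred_length_eq_zero, Set.ncard_singleton]
  · rw [SimpleGraph.Walk.setOfPred_length_eq_zero_of_ne G h, Set.ncard_empty]

theorem wk_succ (G : SimpleGraph V) [G.LocallyFinite] (n : ℕ) (u v : V) :
    wk G (n + 1) u v = ∑ x ∈ G.neighborFinset u, wk G n x v := by
  rw [WLK_card]
  simp only [SimpleGraph.finsetWalkLength]
  rw [Finset.card_biUnion]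
  · simp only [Finset.card_map]
    rw [SimpleGraph.neighborFinset, ← Finset.sum_coe_sort (G.neighborSet u).toFinset
      (fun x => wk G n x v)]
    refine Fintype.sum_equiv (Equiv.subtypeEquivRight fun x => by simp) _ _ ?_
    intro x
    rw [WLK_card]
    rfl
  · intro x _ y _ hxy
    refine Finset.disjoint_left.2 ?_
    intro p hp hp'
    rw [Finset.mem_map] at hp hp'
    obtain ⟨a, -, ha⟩ := hp
    obtain ⟨b, -, hb⟩ := hp'
    apply hxy
    have hx : G.Adj u x.1 := x.2
    have hy : G.Adj u y.1 := y.2
    have h : SimpleGraph.Walk.cons hx a = SimpleGraph.Walk.cons hy b := ha.trans hb.symm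
    rw [SimpleGraph.Walk.cons.injEq] at h
    exact Subtype.ext h.1

theorem wk_symm (G : SimpleGraph V) (n : ℕ) (u v : V) : wk G n u v = wk G n v u := by
  unfold wk
  have h : ({p : G.Walk u v | p.length = n} : Set (G.Walk u v)) =
      SimpleGraph.Walk.reverse '' ({p : G.Walk v u | p.length = n} : Set (G.Walk v u)) := by
    ext p
    constructor
    · intro hp
      exact ⟨p.reverse, by simpa using hp, by simp⟩
    · rintro ⟨q, hq, rfl⟩
      simpa using hq
  rw [h, Set.ncard_image_of_injective _ SimpleGraph.Walk.reverse_injective]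

/-- All walks of length `n` from `v` end in a finite set. -/
theorem wk_supp (G : SimpleGraph V) [G.LocallyFinite] (n : ℕ) (v : V) :
    ∃ S : Finset V, ∀ u, u ∉ S → wk G n v u = 0 := by
  induction n generalizing v with
  | zero =>
    refine ⟨{v}, fun u hu => ?_⟩
    rw [wk_zero, if_neg]
    intro h
    exact hu (by simp [h])
  | succ n ih =>
    choose S hS using ih
    refine ⟨(G.neighborFinset v).biUnion S, fun u hu => ?_⟩
    rw [wk_succ]
    refine Finset.sum_eq_zero fun x hx => hS x u fun h => hu ?_
    exact Finset.mem_biUnion.2 ⟨x, hx, h⟩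

theorem wk_add (G : SimpleGraph V) [G.LocallyFinite] (m n : ℕ) (u v : V) (S : Finset V)
    (hS : ∀ x, x ∉ S → wk G m u x = 0) :
    wk G (m + n) u v = ∑ x ∈ S, wk G m u x * wk G n x v := by
  induction m generalizing u with
  | zero =>
    have hu : u ∈ S := by
      by_contra h
      have := hS u h
      rw [wk_zero, if_pos rfl] at this
      exact one_ne_zero this
    rw [Nat.zero_add, Finset.sum_eq_single u]
    · rw [wk_zero, if_pos rfl, one_mul]
    · intro x _ hx
      rw [wk_zero, if_neg (fun h => hx h.symm), zero_mul]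
    · intro h
      exact absurd hu h
  | succ m ih =>
    have h1 : ∀ y ∈ G.neighborFinset u, wk G (m + n) y v = ∑ x ∈ S, wk G m y x * wk G n x v := by
      intro y hy
      refine ih y fun x hx => ?_
      have h2 := hS x hx
      rw [wk_succ] at h2
      exact Finset.sum_eq_zero_iff.1 h2 y hy
    rw [Nat.add_right_comm, wk_succ, Finset.sum_congr rfl h1, Finset.sum_comm]
    refine Finset.sum_congr rfl fun x _ => ?_
    rw [wk_succ, Finset.sum_mul]

end Pool.Agent.SAWL
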