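import Mathlib
import Pool.Agent.SAWL.Defs
import Pool.Agent.SAWL.WLK

set_option autoImplicit false

namespace Pool.Agent.SAWL

open scoped Classical

variable {V : Type}

theorem INV_surj (G : SimpleGraph V) (φ : G ≃g G) {u w : V} (q : G.Walk u w) :
    ∀ v : V, ∀ hv : φ v = u, ∃ s : Σ w' : V, G.Walk v w',
      (⟨φ s.1, s.2.map φ.toHom⟩ : Σ w : V, G.Walk (φ v) w) = hv ▸ (⟨w, q⟩ : Σ w : V, G.Walk u w) := by
  induction q with
  | nil =>
    intro v hv
    subst hv
    exact ⟨⟨v, SimpleGraph.Walk.nil⟩, rfl⟩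
  | @cons a x c h q' ih =>
    intro v hv
    subst hv
    obtain ⟨y, rfl⟩ := φ.surjective x
    obtain ⟨⟨w', p'⟩, hs⟩ := ih y rfl
    have hs' : (⟨φ w', p'.map φ.toHom⟩ : Σ w : V, G.Walk (φ y) w) = ⟨c, q'⟩ := hs
    have hadj : G.Adj v y := φ.map_adj_iff.mp h
    rw [Sigma.mk.injEq] at hs'
    obtain ⟨h1, h2⟩ := hs'
    subst h1
    have h3 := eq_of_heq h2
    subst h3
    exact ⟨⟨w', SimpleGraph.Walk.cons hadj p'⟩, rfl⟩

theorem saw_iso (G : SimpleGraph V) (φ : G ≃g G) (n : ℕ) (v : V) :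
    saw G n (φ v) = saw G n v := by
  unfold saw
  set F : (Σ w : V, G.Walk v w) → (Σ w : V, G.Walk (φ v) w) :=
    fun s => ⟨φ s.1, s.2.map φ.toHom⟩ with hF
  have hinj : Function.Injective F := by
    rintro ⟨w1, p1⟩ ⟨w2, p2⟩ h
    simp only [hF, Sigma.mk.injEq] at h
    obtain ⟨h1, h2⟩ := h
    have h3 : w1 = w2 := φ.injective h1
    subst h3
    have h4 := eq_of_heq h2
    have h5 := SimpleGraph.Walk.map_injective_of_injective (f := φ.toHom) φ.injective v w1 h4
    rw [h5]
  have himg : F '' {p : Σ w : V, G.Walk v w | p.2.IsPath ∧ p.2.length = n} =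
      {p : Σ w : V, G.Walk (φ v) w | p.2.IsPath ∧ p.2.length = n} := by
    ext ⟨w, q⟩
    constructor
    · rintro ⟨s, ⟨h1, h2⟩, h3⟩
      rw [← h3]
      refine ⟨?_, ?_⟩
      · exact SimpleGraph.Walk.IsPath.map φ.injective h1
      · exact (SimpleGraph.Walk.length_map φ.toHom s.2).trans h2
    · rintro ⟨h1, h2⟩
      obtain ⟨s, hs⟩ := INV_surj G φ q v rfl
      have hs' : F s = ⟨w, q⟩ := hs
      refine ⟨s, ⟨?_, ?_⟩, hs'⟩
      · have h3 : (F s).2.IsPath := by rw [hs']; exact h1
        exact (SimpleGraph.Walk.isPath_map_iff_of_injective φ.injective).mp h3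
      · have h3 : (F s).2.length = n := by rw [hs']; exact h2
        exact (SimpleGraph.Walk.length_map φ.toHom s.2).symm.trans h3
  rw [← himg, Set.ncard_image_of_injective _ hinj]

theorem sal_le_wk (G : SimpleGraph V) [G.LocallyFinite] (n : ℕ) (v : V) :
    sal G n v ≤ wk G n v v := by
  unfold sal wk
  exact Set.ncard_le_ncard (fun c hc => hc.2) (wk_finite G n v v)

theorem degree_iso (G : SimpleGraph V) (φ : G ≃g G) (v : V) :
    (G.neighborSet (φ v)).ncard = (G.neighborSet v).ncard := by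
  have h : G.neighborSet (φ v) = φ '' G.neighborSet v := by
    ext x
    simp only [SimpleGraph.mem_neighborSet, Set.mem_image]
    constructor
    · intro hx
      obtain ⟨y, rfl⟩ := φ.surjective x
      exact ⟨y, φ.map_adj_iff.mp hx, rfl⟩
    · rintro ⟨y, hy, rfl⟩
      exact φ.map_adj_iff.mpr hy
  rw [h, Set.ncard_image_of_injective _ φ.injective]

theorem INV_dist_le (G : SimpleGraph V) (φ : G ≃g G) (u v : V) (h : G.Reachable u v) :
    G.dist (φ u) (φ v) ≤ G.dist u v := by
  obtain ⟨p, hp⟩ := h.exists_walk_length_eq_dist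
  rw [← hp, ← SimpleGraph.Walk.length_map φ.toHom p]
  exact SimpleGraph.dist_le _

theorem dist_iso (G : SimpleGraph V) (φ : G ≃g G) (u v : V) :
    G.dist (φ u) (φ v) = G.dist u v := by
  by_cases h : G.Reachable u v
  · apply le_antisymm (INV_dist_le G φ u v h)
    have h2 : G.Reachable (φ u) (φ v) := h.map φ.toHom
    have h3 := INV_dist_le G φ.symm (φ u) (φ v) h2
    simpa using h3
  · have h2 : ¬ G.Reachable (φ u) (φ v) := by
      intro h3
      apply h
      have h4 := h3.map φ.symm.toHom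
      have e1 : φ.symm.toHom (φ u) = u := φ.symm_apply_apply u
      have e2 : φ.symm.toHom (φ v) = v := φ.symm_apply_apply v
      rw [e1, e2] at h4
      exact h4
    rw [SimpleGraph.dist_eq_zero_of_not_reachable h, SimpleGraph.dist_eq_zero_of_not_reachable h2]

end Pool.Agent.SAWL
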