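import Mathlib
import Pool.Agent.SAWL.Defs
import Pool.Agent.SAWL.WLK

set_option autoImplicit false

namespace Pool.Agent.SAWL

open scoped Classical

variable {V : Type}

/-- The adjacency operator. -/
noncomputable def nrmA (G : SimpleGraph V) [G.LocallyFinite] (f : V → ℝ) (x : V) : ℝ :=
  ∑ y ∈ G.neighborFinset x, f y

theorem nrmA_add (G : SimpleGraph V) [G.LocallyFinite] (f g : V → ℝ) (s : ℝ) (x : V) :
    nrmA G (fun y => f y + s * g y) x = nrmA G f x + s * nrmA G g x := by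
  unfold nrmA
  rw [Finset.sum_add_distrib, Finset.mul_sum]

theorem nrmA_eq_sum (G : SimpleGraph V) [G.LocallyFinite] (T : Finset V) (g : V → ℝ)
    (hg : ∀ x, x ∉ T → g x = 0) (x : V) :
    nrmA G g x = ∑ y ∈ T, if G.Adj x y then g y else 0 := by
  unfold nrmA
  rw [← Finset.sum_filter]
  have h : T.filter (fun y => G.Adj x y) = G.neighborFinset x ∩ T := by
    ext y
    simp [and_comm]
  rw [h]
  symm
  apply Finset.sum_subset Finset.inter_subset_left
  intro y hy hy'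
  apply hg
  intro hT
  exact hy' (Finset.mem_inter.2 ⟨hy, hT⟩)

theorem nrm_symm (G : SimpleGraph V) [G.LocallyFinite] (T : Finset V) (f g : V → ℝ)
    (hf : ∀ x, x ∉ T → f x = 0) (hg : ∀ x, x ∉ T → g x = 0) :
    ∑ x ∈ T, f x * nrmA G g x = ∑ x ∈ T, g x * nrmA G f x := by
  have h1 : ∑ x ∈ T, f x * nrmA G g x = ∑ x ∈ T, ∑ y ∈ T, if G.Adj x y then f x * g y else 0 := by
    refine Finset.sum_congr rfl fun x _ => ?_
    rw [nrmA_eq_sum G T g hg x, Finset.mul_sum]
    refine Finset.sum_congr rfl fun y _ => ?_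
    split_ifs <;> simp
  have h2 : ∑ x ∈ T, g x * nrmA G f x = ∑ x ∈ T, ∑ y ∈ T, if G.Adj x y then g x * f y else 0 := by
    refine Finset.sum_congr rfl fun x _ => ?_
    rw [nrmA_eq_sum G T f hf x, Finset.mul_sum]
    refine Finset.sum_congr rfl fun y _ => ?_
    split_ifs <;> simp
  rw [h1, h2, Finset.sum_comm]
  refine Finset.sum_congr rfl fun x _ => Finset.sum_congr rfl fun y _ => ?_
  simp only [G.adj_comm y x, mul_comm (g x) (f y)]

/-- The norm of `A f` is at most `lam` times the norm of `f`. -/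
theorem nrm_bound (G : SimpleGraph V) [G.LocallyFinite]
    (lam : ℝ) (hlam : 0 < lam)
    (hq : ∀ (S : Finset V) (f : V → ℝ), (∀ x, x ∉ S → f x = 0) →
      |∑ x ∈ S, f x * ∑ y ∈ G.neighborFinset x, f y| ≤ lam * ∑ x ∈ S, f x ^ 2)
    (T : Finset V) (f : V → ℝ) (hf : ∀ x, x ∉ T → f x = 0) (hg : ∀ x, x ∉ T → nrmA G f x = 0) :
    ∑ x ∈ T, nrmA G f x ^ 2 ≤ lam ^ 2 * ∑ x ∈ T, f x ^ 2 := by
  set g : V → ℝ := nrmA G f with hgdef
  set s : ℝ := 1 / lam with hs
  have hspos : 0 < s := by positivity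
  have hp := hq T (fun y => f y + s * g y) (by intro x hx; simp [hf x hx, hg x hx])
  have hm := hq T (fun y => f y + (-s) * g y) (by intro x hx; simp [hf x hx, hg x hx])
  have e1 : ∀ r : ℝ, ∑ x ∈ T, (f x + r * g x) * ∑ y ∈ G.neighborFinset x, (f y + r * g y)
      = ∑ x ∈ T, f x * g x + 2 * r * ∑ x ∈ T, g x ^ 2 + r ^ 2 * ∑ x ∈ T, g x * nrmA G g x := by
    intro r
    have hsy := nrm_symm G T f g hf hg
    have h1 : ∑ x ∈ T, (f x + r * g x) * ∑ y ∈ G.neighborFinset x, (f y + r * g y)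
        = ∑ x ∈ T, (f x * g x + r * (f x * nrmA G g x) + r * (g x * g x)
          + r ^ 2 * (g x * nrmA G g x)) := by
      refine Finset.sum_congr rfl fun x _ => ?_
      have := nrmA_add G f g r x
      unfold nrmA at this
      rw [this]
      change (f x + r * g x) * (nrmA G f x + r * nrmA G g x) = _
      rw [← hgdef]
      ring
    rw [h1, Finset.sum_add_distrib, Finset.sum_add_distrib, Finset.sum_add_distrib,
      ← Finset.mul_sum, ← Finset.mul_sum, ← Finset.mul_sum, hsy]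
    have h2 : ∑ x ∈ T, g x ^ 2 = ∑ x ∈ T, g x * g x :=
      Finset.sum_congr rfl fun x _ => by ring
    have h3 : ∑ x ∈ T, g x * nrmA G f x = ∑ x ∈ T, g x * g x := rfl
    rw [h2, h3]
    ring
  have e2 : ∀ r : ℝ, ∑ x ∈ T, (f x + r * g x) ^ 2
      = ∑ x ∈ T, f x ^ 2 + 2 * r * ∑ x ∈ T, f x * g x + r ^ 2 * ∑ x ∈ T, g x ^ 2 := by
    intro r
    rw [Finset.mul_sum, Finset.mul_sum, ← Finset.sum_add_distrib, ← Finset.sum_add_distrib]
    refine Finset.sum_congr rfl fun x _ => ?_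
    ring
  rw [e1, e2] at hp hm
  have hp' := (abs_le.1 hp).2
  have hm' := (abs_le.1 hm).1
  have key : 4 * s * ∑ x ∈ T, g x ^ 2 ≤ 2 * lam * ∑ x ∈ T, f x ^ 2
      + 2 * lam * s ^ 2 * ∑ x ∈ T, g x ^ 2 := by
    nlinarith [hp', hm']
  have hls : lam * s = 1 := by rw [hs]; field_simp
  have h4 : 2 * lam * s ^ 2 * ∑ x ∈ T, g x ^ 2 = 2 * s * ∑ x ∈ T, g x ^ 2 := by
    have : 2 * lam * s ^ 2 = 2 * s := by
      calc 2 * lam * s ^ 2 = 2 * s * (lam * s) := by ring
        _ = 2 * s := by rw [hls, mul_one]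
    rw [this]
  rw [h4] at key
  have h5 : s * ∑ x ∈ T, g x ^ 2 ≤ lam * ∑ x ∈ T, f x ^ 2 := by linarith
  calc ∑ x ∈ T, g x ^ 2 = lam * (s * ∑ x ∈ T, g x ^ 2) := by
        rw [← mul_assoc, hls, one_mul]
    _ ≤ lam * (lam * ∑ x ∈ T, f x ^ 2) := mul_le_mul_of_nonneg_left h5 hlam.le
    _ = lam ^ 2 * ∑ x ∈ T, f x ^ 2 := by ring

/-- The walk counts from `v`, as real numbers. -/
noncomputable def nrmF (G : SimpleGraph V) (v : V) (j : ℕ) (x : V) : ℝ := (wk G j v x : ℝ)

theorem nrmF_succ (G : SimpleGraph V) [G.LocallyFinite] (v : V) (j : ℕ) (x : V) :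
    nrmA G (nrmF G v j) x = nrmF G v (j + 1) x := by
  unfold nrmA nrmF
  rw [wk_symm G (j + 1) v x, wk_succ]
  push_cast
  exact Finset.sum_congr rfl fun y _ => by rw [wk_symm]

theorem nrm_wk_two (G : SimpleGraph V) [G.LocallyFinite] (d : ℕ) (hd : ∀ v, G.degree v = d)
    (v : V) : wk G 2 v v = d := by
  rw [show (2 : ℕ) = 1 + 1 from rfl, wk_succ]
  have : ∀ x ∈ G.neighborFinset v, wk G 1 x v = 1 := by
    intro x hx
    rw [show (1 : ℕ) = 0 + 1 from rfl, wk_succ]
    simp only [wk_zero]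
    rw [Finset.sum_ite_eq']
    rw [if_pos]
    rw [SimpleGraph.mem_neighborFinset] at hx ⊢
    exact hx.symm
  rw [Finset.sum_congr rfl this]
  simp [hd]

/-- Closed walks are counted by the bound `lam` for the adjacency form. -/
theorem closed_walk_le (G : SimpleGraph V) [G.LocallyFinite] (d : ℕ) (hd : ∀ v, G.degree v = d)
    (lam : ℝ) (hlam : 0 < lam)
    (hq : ∀ (S : Finset V) (f : V → ℝ), (∀ x, x ∉ S → f x = 0) →
      |∑ x ∈ S, f x * ∑ y ∈ G.neighborFinset x, f y| ≤ lam * ∑ x ∈ S, f x ^ 2)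
    (v : V) (m : ℕ) : (wk G (m + 2) v v : ℝ) ≤ d * lam ^ m := by
  -- norms of the walk functions
  have hnorm : ∀ (j : ℕ) (S : Finset V), (∀ x, x ∉ S → nrmF G v j x = 0) →
      ∑ x ∈ S, nrmF G v j x ^ 2 = (wk G (j + j) v v : ℝ) := by
    intro j S hS
    rw [wk_add G j j v v S (by
      intro x hx
      have := hS x hx
      unfold nrmF at this
      exact_mod_cast this)]
    push_cast
    refine Finset.sum_congr rfl fun x _ => ?_
    unfold nrmF
    rw [wk_symm G j x v]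
    ring
  have hsupp : ∀ j : ℕ, ∃ S : Finset V, ∀ x, x ∉ S → nrmF G v j x = 0 := by
    intro j
    obtain ⟨S, hS⟩ := wk_supp G j v
    refine ⟨S, fun x hx => ?_⟩
    unfold nrmF
    rw [hS x hx]
    simp
  -- the even case
  have heven : ∀ j : ℕ, (wk G ((j + 1) + (j + 1)) v v : ℝ) ≤ d * lam ^ (2 * j) := by
    intro j
    induction j with
    | zero =>
      have := nrm_wk_two G d hd v
      simp only [Nat.zero_add, mul_zero, pow_zero, mul_one]
      rw [show (1 : ℕ) + 1 = 2 from rfl, this]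
    | succ j ih =>
      obtain ⟨S1, hS1⟩ := hsupp (j + 1)
      obtain ⟨S2, hS2⟩ := hsupp (j + 1 + 1)
      have hT1 : ∀ x, x ∉ S1 ∪ S2 → nrmF G v (j + 1) x = 0 := fun x hx =>
        hS1 x (fun h => hx (Finset.mem_union_left _ h))
      have hT2 : ∀ x, x ∉ S1 ∪ S2 → nrmF G v (j + 1 + 1) x = 0 := fun x hx =>
        hS2 x (fun h => hx (Finset.mem_union_right _ h))
      have hb := nrm_bound G lam hlam hq (S1 ∪ S2) (nrmF G v (j + 1)) hT1
        (by intro x hx; rw [nrmF_succ]; exact hT2 x hx)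
      simp only [nrmF_succ] at hb
      rw [hnorm _ _ hT1, hnorm _ _ hT2] at hb
      calc (wk G ((j + 1 + 1) + (j + 1 + 1)) v v : ℝ)
          ≤ lam ^ 2 * (wk G ((j + 1) + (j + 1)) v v : ℝ) := hb
        _ ≤ lam ^ 2 * (d * lam ^ (2 * j)) := mul_le_mul_of_nonneg_left ih (by positivity)
        _ = d * lam ^ (2 * (j + 1)) := by ring
  rcases Nat.even_or_odd m with ⟨j, hj⟩ | ⟨j, hj⟩
  · have := heven j
    rw [show m + 2 = (j + 1) + (j + 1) by omega, show m = 2 * j by omega]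
    exact this
  · obtain ⟨S, hS⟩ := hsupp (j + 1)
    have h1 := hq S (nrmF G v (j + 1)) hS
    rw [hnorm _ _ hS] at h1
    have h2 : ∑ x ∈ S, nrmF G v (j + 1) x * ∑ y ∈ G.neighborFinset x, nrmF G v (j + 1) y
        = (wk G (m + 2) v v : ℝ) := by
      rw [show m + 2 = (j + 1) + (j + 2) by omega,
        wk_add G (j + 1) (j + 2) v v S (by
          intro x hx
          have := hS x hx
          unfold nrmF at this
          exact_mod_cast this)]
      push_cast
      refine Finset.sum_congr rfl fun x _ => ?_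
      have := nrmF_succ G v (j + 1) x
      unfold nrmA at this
      rw [this]
      unfold nrmF
      rw [wk_symm G (j + 2) x v]
    rw [h2] at h1
    calc (wk G (m + 2) v v : ℝ) ≤ |(wk G (m + 2) v v : ℝ)| := le_abs_self _
      _ ≤ lam * (wk G ((j + 1) + (j + 1)) v v : ℝ) := h1
      _ ≤ lam * (d * lam ^ (2 * j)) := mul_le_mul_of_nonneg_left (heven j) hlam.le
      _ = d * lam ^ m := by rw [hj]; ring

end Pool.Agent.SAWL
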