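import Mathlib
import Pool.Agent.SAWL.Defs
import Pool.Agent.SAWL.WLK

set_option autoImplicit false

namespace Pool.Agent.SAWL

open scoped Classical

variable {V : Type}

theorem saw_finite (G : SimpleGraph V) [G.LocallyFinite] (n : ℕ) (v : V) :
    ({p : Σ w : V, G.Walk v w | p.2.IsPath ∧ p.2.length = n} : Set (Σ w : V, G.Walk v w)).Finite := by
  obtain ⟨S, hS⟩ := wk_supp G n v
  have hfin : (⋃ w ∈ S, (fun p : G.Walk v w => (⟨w, p⟩ : Σ w : V, G.Walk v w)) ''
      {p : G.Walk v w | p.length = n}).Finite := by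
    apply Set.Finite.biUnion (Finset.finite_toSet S)
    intro w _
    exact (wk_finite G n v w).image _
  refine hfin.subset ?_
  rintro ⟨w, p⟩ ⟨_, hp⟩
  have hw : w ∈ S := by
    by_contra hw
    have h0 := hS w hw
    unfold wk at h0
    rw [Set.ncard_eq_zero (wk_finite G n v w)] at h0
    have : p ∈ ({p : G.Walk v w | p.length = n} : Set (G.Walk v w)) := hp
    rw [h0] at this
    exact this
  simp only [Set.mem_iUnion]
  exact ⟨w, hw, p, hp, rfl⟩

theorem saw_zero (G : SimpleGraph V) (v : V) : saw G 0 v = 1 := by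
  unfold saw
  rw [Set.ncard_eq_one]
  refine ⟨⟨v, SimpleGraph.Walk.nil⟩, ?_⟩
  ext ⟨w, p⟩
  simp only [Set.mem_ofPred_eq, Set.mem_singleton_iff]
  constructor
  · rintro ⟨_, h⟩
    cases p with
    | nil => rfl
    | cons h' q => simp at h
  · intro h
    cases h
    simp

/-- The self-avoiding walks of length `n` from `x` avoiding `v`. -/
theorem REC_avoid (G : SimpleGraph V) [G.LocallyFinite] (n : ℕ) (v x : V) (hx : G.Adj v x) :
    ({p : Σ w : V, G.Walk x w | (p.2.IsPath ∧ p.2.length = n) ∧ v ∉ p.2.support} :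
        Set (Σ w : V, G.Walk x w)).ncard
      ≤ ({p : Σ w : V, G.Walk v w | (p.2.IsPath ∧ p.2.length = n + 1) ∧ p.2.snd = x} :
        Set (Σ w : V, G.Walk v w)).ncard := by
  have hfinT : ({p : Σ w : V, G.Walk v w | (p.2.IsPath ∧ p.2.length = n + 1) ∧ p.2.snd = x} :
        Set (Σ w : V, G.Walk v w)).Finite :=
    (saw_finite G (n + 1) v).subset fun p hp => hp.1
  refine Set.ncard_le_ncard_of_injOn
    (fun p : Σ w : V, G.Walk x w => (⟨p.1, SimpleGraph.Walk.cons hx p.2⟩ : Σ w : V, G.Walk v w))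
    ?_ ?_ hfinT
  · rintro ⟨w, p⟩ ⟨⟨h1, h2⟩, h3⟩
    refine ⟨⟨?_, ?_⟩, ?_⟩
    · simp only [SimpleGraph.Walk.cons_isPath_iff]
      exact ⟨h1, h3⟩
    · simp only [SimpleGraph.Walk.length_cons]
      simp only at h2
      rw [h2]
    · simp
  · rintro ⟨w, p⟩ _ ⟨w', p'⟩ _ h
    simp only [Sigma.mk.injEq] at h
    obtain ⟨h1, h2⟩ := h
    subst h1
    have h3 := eq_of_heq h2
    rw [SimpleGraph.Walk.cons.injEq] at h3
    have h4 := eq_of_heq h3.2
    rw [h4]

theorem REC_hit (G : SimpleGraph V) [G.LocallyFinite] (n j : ℕ) (v x : V) :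
    ({p : Σ w : V, G.Walk x w | (p.2.IsPath ∧ p.2.length = n) ∧
        ∃ h : v ∈ p.2.support, (p.2.takeUntil v h).length = j} :
        Set (Σ w : V, G.Walk x w)).ncard
      ≤ wk G j x v * saw G (n - j) v := by
  unfold wk saw
  rw [← Set.ncard_prod]
  refine le_trans (Set.ncard_le_ncard (t := (fun q : G.Walk x v × (Σ w : V, G.Walk v w) =>
    (⟨q.2.1, q.1.append q.2.2⟩ : Σ w : V, G.Walk x w)) '' (({p : G.Walk x v | p.length = j}) ×ˢ
      ({p : Σ w : V, G.Walk v w | p.2.IsPath ∧ p.2.length = n - j}))) ?_ ?_)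
      (Set.ncard_image_le ?_)
  · rintro ⟨w, p⟩ ⟨⟨h1, h2⟩, h3, h4⟩
    simp only at h1 h2 h3 h4
    refine ⟨(p.takeUntil v h3, ⟨w, p.dropUntil v h3⟩), ?_, ?_⟩
    · refine ⟨h4, h1.dropUntil h3, ?_⟩
      simp only
      have h5 := congrArg SimpleGraph.Walk.length (p.take_spec h3)
      rw [SimpleGraph.Walk.length_append] at h5
      omega
    · simp
  · exact Set.Finite.image _ (Set.Finite.prod (wk_finite G j x v) (saw_finite G (n - j) v))
  · exact Set.Finite.prod (wk_finite G j x v) (saw_finite G (n - j) v)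

/-- Put one more edge in front of a self-avoiding walk; the new walk is self-avoiding unless the
old one passes through `v`, and then it splits into a closed walk and a self-avoiding walk. -/
theorem saw_rec (G : SimpleGraph V) [G.LocallyFinite] (n : ℕ) (v : V) :
    ∑ x ∈ G.neighborFinset v, saw G n x
      ≤ saw G (n + 1) v + ∑ j ∈ Finset.Icc 1 n, wk G (j + 1) v v * saw G (n - j) v := by
  -- the fibres of the second vertex
  have hfib : ∑ x ∈ G.neighborFinset v,
      ({p : Σ w : V, G.Walk v w | (p.2.IsPath ∧ p.2.length = n + 1) ∧ p.2.snd = x} :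
        Set (Σ w : V, G.Walk v w)).ncard ≤ saw G (n + 1) v := by
    unfold saw
    have hF := saw_finite G (n + 1) v
    rw [Set.ncard_eq_toFinset_card _ hF]
    have hcard : ∀ x, ({p : Σ w : V, G.Walk v w | (p.2.IsPath ∧ p.2.length = n + 1) ∧ p.2.snd = x} :
        Set (Σ w : V, G.Walk v w)).ncard = (hF.toFinset.filter (fun p => p.2.snd = x)).card := by
      intro x
      rw [← Set.ncard_coe_finset]
      congr 1
      ext p
      simp
    rw [Finset.sum_congr rfl fun x _ => hcard x]
    rw [← Finset.card_biUnion]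
    · apply Finset.card_le_card
      intro p hp
      rw [Finset.mem_biUnion] at hp
      obtain ⟨x, _, hp⟩ := hp
      exact (Finset.mem_filter.1 hp).1
    · intro x _ y _ hxy
      rw [Function.onFun, Finset.disjoint_left]
      intro p hp hq
      exact hxy ((Finset.mem_filter.1 hp).2.symm.trans (Finset.mem_filter.1 hq).2)
  have hmain : ∀ x ∈ G.neighborFinset v, saw G n x ≤
      ({p : Σ w : V, G.Walk v w | (p.2.IsPath ∧ p.2.length = n + 1) ∧ p.2.snd = x} :
        Set (Σ w : V, G.Walk v w)).ncard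
      + ∑ j ∈ Finset.Icc 1 n, wk G j x v * saw G (n - j) v := by
    intro x hx
    rw [SimpleGraph.mem_neighborFinset] at hx
    have hsplit : ({p : Σ w : V, G.Walk x w | p.2.IsPath ∧ p.2.length = n} :
        Set (Σ w : V, G.Walk x w)) ⊆
        {p : Σ w : V, G.Walk x w | (p.2.IsPath ∧ p.2.length = n) ∧ v ∉ p.2.support} ∪
        ⋃ j ∈ Finset.Icc 1 n, {p : Σ w : V, G.Walk x w | (p.2.IsPath ∧ p.2.length = n) ∧
        ∃ h : v ∈ p.2.support, (p.2.takeUntil v h).length = j} := by
      rintro ⟨w, p⟩ ⟨h1, h2⟩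
      simp only at h1 h2
      by_cases hv : v ∈ p.support
      · right
        simp only [Set.mem_iUnion]
        refine ⟨(p.takeUntil v hv).length, ?_, ⟨h1, h2⟩, hv, rfl⟩
        rw [Finset.mem_Icc]
        constructor
        · by_contra h0
          have h00 : (p.takeUntil v hv).length = 0 := by omega
          have := SimpleGraph.Walk.eq_of_length_eq_zero h00
          exact hx.ne this.symm
        · rw [← h2]
          exact p.length_takeUntil_le_length hv
      · left
        exact ⟨⟨h1, h2⟩, hv⟩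
    have hfin1 : ({p : Σ w : V, G.Walk x w | (p.2.IsPath ∧ p.2.length = n) ∧ v ∉ p.2.support} :
        Set (Σ w : V, G.Walk x w)).Finite := (saw_finite G n x).subset fun p hp => hp.1
    have hfin2 : ∀ j, ({p : Σ w : V, G.Walk x w | (p.2.IsPath ∧ p.2.length = n) ∧
        ∃ h : v ∈ p.2.support, (p.2.takeUntil v h).length = j} :
        Set (Σ w : V, G.Walk x w)).Finite :=
      fun j => (saw_finite G n x).subset fun p hp => hp.1
    unfold saw
    refine le_trans (Set.ncard_le_ncard hsplit (hfin1.union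
      (Set.Finite.biUnion (Finset.finite_toSet _) fun j _ => hfin2 j))) ?_
    refine le_trans (Set.ncard_union_le _ _) ?_
    refine add_le_add (REC_avoid G n v x hx) ?_
    refine le_trans (Finset.set_ncard_biUnion_le _ _) ?_
    exact Finset.sum_le_sum fun j _ => REC_hit G n j v x
  refine le_trans (Finset.sum_le_sum hmain) ?_
  rw [Finset.sum_add_distrib]
  refine add_le_add hfib ?_
  rw [Finset.sum_comm]
  apply le_of_eq
  refine Finset.sum_congr rfl fun j _ => ?_
  rw [wk_succ, Finset.sum_mul]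

end Pool.Agent.SAWL
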