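import Mathlib
import Pool.Agent.SAWL.Defs
import Pool.Agent.SAWL.CHE
import Pool.Agent.SAWL.NRM
import Pool.Agent.SAWL.REC
import Pool.Agent.SAWL.GRW
import Pool.Agent.SAWL.INV

set_option autoImplicit false

namespace Pool.Agent.SAWL

open scoped Classical

variable {V : Type}

theorem MAINA_bdry_le (G : SimpleGraph V) [G.LocallyFinite] (S : Finset V) :
    bdry G S ≤ ∑ x ∈ S, (G.neighborFinset x \ S).card := by
  unfold bdry
  have hsub : ({p : V × V | p.1 ∈ S ∧ p.2 ∉ S ∧ G.Adj p.1 p.2} : Set (V × V)) ⊆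
      ((S.sigma fun x => G.neighborFinset x \ S).image (fun q => (q.1, q.2)) : Finset (V × V)) := by
    rintro ⟨x, y⟩ ⟨h1, h2, h3⟩
    simp only [Finset.coe_image, Set.mem_image, Finset.mem_coe, Finset.mem_sigma,
      Finset.mem_sdiff, SimpleGraph.mem_neighborFinset]
    exact ⟨⟨x, y⟩, ⟨h1, h3, h2⟩, rfl⟩
  calc _ ≤ (((S.sigma fun x => G.neighborFinset x \ S).image
        (fun q => (q.1, q.2)) : Finset (V × V)) : Set (V × V)).ncard :=
        Set.ncard_le_ncard hsub (Finset.finite_toSet _)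
    _ = ((S.sigma fun x => G.neighborFinset x \ S).image (fun q => (q.1, q.2))).card :=
        Set.ncard_coe_finset _
    _ ≤ (S.sigma fun x => G.neighborFinset x \ S).card := Finset.card_image_le
    _ = _ := Finset.card_sigma _ _

theorem MAINA_h_le (G : SimpleGraph V) [G.LocallyFinite] (d : ℕ) (hd : ∀ v, G.degree v = d)
    (h : ℝ) (h0 : 0 < h)
    (iso : ∀ S : Finset V, S.Nonempty → h * (S.card : ℝ) ≤ (bdry G S : ℝ)) (v : V) :
    h ≤ d - 1 := by
  have h1 := iso {v} (Finset.singleton_nonempty v)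
  have h2 := MAINA_bdry_le G {v}
  simp only [Finset.card_singleton, Nat.cast_one, mul_one, Finset.sum_singleton] at h1 h2
  have h3 : 0 < (G.neighborFinset v \ {v}).card := by
    rcases Nat.eq_zero_or_pos (G.neighborFinset v \ {v}).card with h4 | h4
    · rw [h4] at h2
      have h5 : bdry G {v} = 0 := by omega
      rw [h5] at h1
      push_cast at h1
      linarith
    · exact h4
  obtain ⟨w, hw⟩ := Finset.card_pos.mp h3
  have hadj : G.Adj v w := by
    have := (Finset.mem_sdiff.mp hw).1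
    simpa using this
  have hne : v ≠ w := hadj.ne
  have hcard : ({v, w} : Finset V).card = 2 := Finset.card_pair hne
  have h6 := iso {v, w} ⟨v, by simp⟩
  have h7 := MAINA_bdry_le G {v, w}
  rw [Finset.sum_pair hne] at h7
  have hb : ∀ a b : V, G.Adj a b → b ∈ ({v, w} : Finset V) →
      (G.neighborFinset a \ {v, w}).card + 1 ≤ d := by
    intro a b hab hbm
    have hlt : (G.neighborFinset a \ {v, w}) ⊂ G.neighborFinset a := by
      refine ⟨Finset.sdiff_subset, fun hh => ?_⟩
      have : b ∈ G.neighborFinset a := by simpa using hab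
      exact (Finset.mem_sdiff.mp (hh this)).2 hbm
    have := Finset.card_lt_card hlt
    rw [SimpleGraph.card_neighborFinset_eq_degree, hd a] at this
    omega
  have h8 := hb v w hadj (by simp)
  have h9 := hb w v hadj.symm (by simp)
  have h10 : bdry G {v, w} + 2 ≤ 2 * d := by omega
  have h11 : (bdry G {v, w} : ℝ) + 2 ≤ 2 * d := by exact_mod_cast h10
  rw [hcard] at h6
  push_cast at h6
  linarith

/-- Growth of self-avoiding walks against self-avoiding loops for large isoperimetric constant. -/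
theorem mainA (G : SimpleGraph V) (hfin : ∀ v : V, (G.neighborSet v).Finite)
    (htr : ∀ v w : V, ∃ φ : G ≃g G, φ v = w)
    (d : ℕ) (hd : ∀ v, (G.neighborSet v).ncard = d) (h : ℝ) (h0 : 0 < h)
    (iso : ∀ S : Finset V, S.Nonempty → h * (S.card : ℝ) ≤ (bdry G S : ℝ))
    (hh : 4 * (d : ℝ) * (Real.sqrt d - 1) ≤ h ^ 2) (v : V) :
    ∃ a b : ℝ, 0 ≤ a ∧ a < b ∧ (∀ᶠ n : ℕ in Filter.atTop, (sal G n v : ℝ) ≤ a ^ n) ∧
      (∀ᶠ n : ℕ in Filter.atTop, b ^ n ≤ (saw G n v : ℝ)) := by
  letI : G.LocallyFinite := fun v => (hfin v).fintype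
  have hdeg : ∀ v, G.degree v = d := by
    intro v
    rw [← SimpleGraph.card_neighborSet_eq_degree, ← hd v, Set.ncard_eq_toFinset_card',
      Set.toFinset_card]
  have hh1 := MAINA_h_le G d hdeg h h0 iso v
  set s := Real.sqrt d with hs
  have hs0 : 0 ≤ s := Real.sqrt_nonneg _
  have hs2 : s ^ 2 = d := Real.sq_sqrt (Nat.cast_nonneg d)
  have hd1 : (1 : ℝ) < d := by linarith
  have hs1 : 1 < s := by
    by_contra hc
    push Not at hc
    nlinarith
  have hsge : 2 ≤ s := by
    by_contra hc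
    push Not at hc
    have h1 : h ^ 2 ≤ ((d : ℝ) - 1) ^ 2 := by nlinarith
    have h2 : 4 * s ^ 2 * (s - 1) ≤ (s ^ 2 - 1) ^ 2 := by
      rw [hs2]; linarith
    have h3 : 0 ≤ (s - 1) * (s ^ 3 - 3 * s ^ 2 - s - 1) := by nlinarith
    have h4 : 0 ≤ s ^ 3 - 3 * s ^ 2 - s - 1 := by
      by_contra h5
      push Not at h5
      nlinarith [mul_pos (by linarith : (0:ℝ) < s - 1) (neg_pos.mpr h5)]
    nlinarith [mul_pos (mul_pos (by linarith : (0:ℝ) < s) (by linarith : (0:ℝ) < s)) (by linarith : (0:ℝ) < 3 - s)]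
  have hpos : 0 < (d : ℝ) ^ 2 - h ^ 2 := by nlinarith
  set lam := Real.sqrt ((d : ℝ) ^ 2 - h ^ 2) with hlamdef
  have hlam : 0 < lam := Real.sqrt_pos.mpr hpos
  have hlam2 : lam ^ 2 = (d : ℝ) ^ 2 - h ^ 2 := Real.sq_sqrt hpos.le
  have hdl : 2 * s ≤ d - lam := by
    have h1 : lam ≤ d - 2 * s := by
      apply Real.sqrt_le_iff.mpr
      refine ⟨by nlinarith, ?_⟩
      rw [← hs2] at hh ⊢
      nlinarith
    linarith
  have hq : ∀ (S : Finset V) (f : V → ℝ), (∀ x, x ∉ S → f x = 0) →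
      |∑ x ∈ S, f x * ∑ y ∈ G.neighborFinset x, f y| ≤ lam * ∑ x ∈ S, f x ^ 2 := by
    intro S f hf
    have h1 := cheeger G d hdeg h h0.le iso S f hf
    rw [← hlam2, ← mul_pow] at h1
    have h2 : 0 ≤ lam * ∑ x ∈ S, f x ^ 2 :=
      mul_nonneg hlam.le (Finset.sum_nonneg fun _ _ => sq_nonneg _)
    exact abs_le_of_sq_le_sq h1 h2
  have hcl := closed_walk_le G d hdeg lam hlam hq v
  set b := ((d : ℝ) + lam) / 2 with hb
  have hgr : ∀ n, b ^ n ≤ (saw G n v : ℝ) := by
    refine growth (fun n => (saw G n v : ℝ)) (fun n => (wk G n v v : ℝ)) d lam b ?_ ?_ ?_ hlam.le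
      ?_ ?_ hcl ?_
    · simp [saw_zero]
    · intro n; positivity
    · positivity
    · rw [hb]; linarith
    · rw [hb]
      have h1 : s ≤ (d - lam) / 2 := by linarith
      have h2 : s ^ 2 ≤ ((d - lam) / 2) ^ 2 := by
        apply pow_le_pow_left₀ hs0 h1
      rw [hs2] at h2
      calc (d : ℝ) ≤ ((d - lam) / 2) ^ 2 := h2
        _ = _ := by ring
    · intro n
      have h1 := saw_rec G n v
      have h2 : ∑ x ∈ G.neighborFinset v, saw G n x = d * saw G n v := by
        have h3 : ∀ x ∈ G.neighborFinset v, saw G n x = saw G n v := by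
          intro x _
          obtain ⟨φ, hφ⟩ := htr v x
          rw [← hφ]
          exact saw_iso G φ n v
        rw [Finset.sum_congr rfl h3, Finset.sum_const, SimpleGraph.card_neighborFinset_eq_degree,
          hdeg, smul_eq_mul]
      rw [h2] at h1
      have h4 : ((d * saw G n v : ℕ) : ℝ) ≤
          ((saw G (n + 1) v + ∑ j ∈ Finset.Icc 1 n, wk G (j + 1) v v * saw G (n - j) v : ℕ) : ℝ) := by
        exact_mod_cast h1
      push_cast at h4
      exact h4
  set a := (lam + b) / 2 with ha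
  have hab : a < b := by rw [ha]; linarith
  have hla : lam < a := by rw [ha]; linarith
  have ha0 : 0 < a := by linarith
  refine ⟨a, b, ha0.le, hab, ?_, Filter.Eventually.of_forall hgr⟩
  have hr : Filter.Tendsto (fun n : ℕ => (d : ℝ) / lam ^ 2 * (lam / a) ^ n) Filter.atTop (nhds 0) := by
    have h1 := tendsto_pow_atTop_nhds_zero_of_lt_one (r := lam / a) (by positivity)
      (by rw [div_lt_one ha0]; exact hla)
    simpa using h1.const_mul ((d : ℝ) / lam ^ 2)
  have h1 : ∀ᶠ n : ℕ in Filter.atTop, (d : ℝ) / lam ^ 2 * (lam / a) ^ n < 1 :=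
    hr.eventually (gt_mem_nhds one_pos)
  filter_upwards [h1, Filter.eventually_ge_atTop 2] with n hn1 hn2
  obtain ⟨m, rfl⟩ := Nat.exists_eq_add_of_le' hn2
  have h2 : (sal G (m + 2) v : ℝ) ≤ d * lam ^ m := by
    refine le_trans ?_ (hcl m)
    exact_mod_cast sal_le_wk G (m + 2) v
  refine h2.trans ?_
  have h3 : (d : ℝ) / lam ^ 2 * (lam / a) ^ (m + 2) * a ^ (m + 2) = d * lam ^ m := by
    rw [div_pow]
    field_simp
    ring
  have h4 : (d : ℝ) / lam ^ 2 * (lam / a) ^ (m + 2) * a ^ (m + 2) ≤ 1 * a ^ (m + 2) := by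
    apply mul_le_mul_of_nonneg_right hn1.le (by positivity)
  linarith

end Pool.Agent.SAWL
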