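import Mathlib
import Pool.Agent.SAWL.Defs
import Pool.Agent.SAWL.WLK

set_option autoImplicit false

namespace Pool.Agent.SAWL

open scoped Classical

variable {V : Type}

/-- Cauchy-Schwarz for closed walks. -/
theorem SPEC_cs (G : SimpleGraph V) [G.LocallyFinite] (i j : ℕ) (v : V) :
    (wk G (i + j) v v : ℝ) ^ 2 ≤ (wk G (i + i) v v : ℝ) * (wk G (j + j) v v : ℝ) := by
  obtain ⟨S1, hS1⟩ := wk_supp G i v
  obtain ⟨S2, hS2⟩ := wk_supp G j v
  set S := S1 ∪ S2 with hS
  have h1 : ∀ x, x ∉ S → wk G i v x = 0 := fun x hx => hS1 x (fun h => hx (by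
    rw [hS]; exact Finset.mem_union_left _ h))
  have h2 : ∀ x, x ∉ S → wk G j v x = 0 := fun x hx => hS2 x (fun h => hx (by
    rw [hS]; exact Finset.mem_union_right _ h))
  have e1 : (wk G (i + j) v v : ℝ) = ∑ x ∈ S, (wk G i v x : ℝ) * (wk G j v x : ℝ) := by
    rw [wk_add G i j v v S h1]
    push_cast
    exact Finset.sum_congr rfl fun x _ => by rw [wk_symm G j x v]
  have e2 : (wk G (i + i) v v : ℝ) = ∑ x ∈ S, (wk G i v x : ℝ) ^ 2 := by
    rw [wk_add G i i v v S h1]
    push_cast
    exact Finset.sum_congr rfl fun x _ => by rw [wk_symm G i x v]; ring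
  have e3 : (wk G (j + j) v v : ℝ) = ∑ x ∈ S, (wk G j v x : ℝ) ^ 2 := by
    rw [wk_add G j j v v S h2]
    push_cast
    exact Finset.sum_congr rfl fun x _ => by rw [wk_symm G j x v]; ring
  rw [e1, e2, e3]
  exact Finset.sum_mul_sq_le_sq_mul_sq S _ _

theorem SPEC_one (G : SimpleGraph V) [G.LocallyFinite] (v : V) :
    wk G (1 + 1) v v = G.degree v := by
  rw [wk_succ]
  have h : ∀ x ∈ G.neighborFinset v, wk G 1 x v = 1 := by
    intro x hx
    have hx' : G.Adj v x := by simpa using hx
    have h0 := wk_succ G 0 x v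
    rw [zero_add] at h0
    rw [h0]
    have h1 : ∀ y ∈ G.neighborFinset x, wk G 0 y v = if y = v then 1 else 0 := fun y _ => wk_zero G y v
    rw [Finset.sum_congr rfl h1, Finset.sum_ite_eq', if_pos]
    simpa using hx'.symm
  rw [Finset.sum_congr rfl h]
  simp

/-- Closed walks are counted by the exponential growth rate of closed walks. -/
theorem closed_walk_le_spec (G : SimpleGraph V) [G.LocallyFinite] (d : ℕ) (v : V)
    (hd : G.degree v = d) (hd1 : 1 ≤ d)
    (lam : ℝ) (hlam : 0 < lam)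
    (hq : ∀ ε : ℝ, 0 < ε → ∀ᶠ n : ℕ in Filter.atTop, (wk G n v v : ℝ) ≤ (lam + ε) ^ n)
    (m : ℕ) : (wk G (m + 2) v v : ℝ) ≤ d * lam ^ m := by
  set b : ℕ → ℝ := fun j => (wk G (j + j) v v : ℝ) with hb
  have hb1 : b 1 = d := by
    simp only [hb]
    rw [SPEC_one, hd]
  have hdpos : (0 : ℝ) < d := by exact_mod_cast hd1
  have hb0 : b 0 = 1 := by
    simp only [hb]
    rw [wk_zero, if_pos rfl, Nat.cast_one]
  have hconv : ∀ j, b (j + 1) ^ 2 ≤ b j * b (j + 2) := by
    intro j
    have h1 := SPEC_cs G j (j + 2) v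
    have h2 : j + (j + 2) = (j + 1) + (j + 1) := by ring
    rw [h2] at h1
    exact h1
  have hbnn : ∀ j, 0 ≤ b j := fun j => Nat.cast_nonneg _
  have hbpos : ∀ j, 0 < b j ∧ 0 < b (j + 1) := by
    intro j
    induction j with
    | zero => exact ⟨by rw [hb0]; exact one_pos, by rw [zero_add, hb1]; exact hdpos⟩
    | succ j ih =>
      refine ⟨ih.2, ?_⟩
      have h1 := hconv j
      have h2 : 0 < b (j + 1) ^ 2 := pow_pos ih.2 2
      rcases (hbnn (j + 2)).lt_or_eq with h3 | h3
      · exact h3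
      · rw [← h3, mul_zero] at h1
        linarith
  -- the ratios are monotone
  have hratio : ∀ j k, b (j + 1) ^ k * b j ≤ b j ^ k * b (j + k) := by
    intro j k
    -- b (j+k) / b j ≥ (b (j+1) / b j)^k
    have key : ∀ k, b (j + 1) * b (j + k) ≤ b j * b (j + k + 1) := by
      intro k
      induction k with
      | zero => simp only [add_zero]; rw [mul_comm]
      | succ k ih =>
        have h1 := hconv (j + k)
        have p0 := (hbpos (j + k)).1
        have p1 := (hbpos (j + k)).2
        have p2 := (hbpos j).1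
        have e1 : j + (k + 1) = j + k + 1 := by ring
        have e2 : j + (k + 1) + 1 = j + k + 2 := by ring
        rw [e2, e1]
        -- b(j+1) b(j+k+1) * b(j+k) ≤ b j * b(j+k+1)^2 ≤ b j * b(j+k) * b(j+k+2)
        have h2 : b (j + 1) * b (j + k + 1) * b (j + k) ≤ b j * b (j + k + 2) * b (j + k) := by
          calc b (j + 1) * b (j + k + 1) * b (j + k) = (b (j + 1) * b (j + k)) * b (j + k + 1) := by ring
            _ ≤ (b j * b (j + k + 1)) * b (j + k + 1) := mul_le_mul_of_nonneg_right ih p1.le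
            _ = b j * b (j + k + 1) ^ 2 := by ring
            _ ≤ b j * (b (j + k) * b (j + k + 2)) := mul_le_mul_of_nonneg_left h1 p2.le
            _ = _ := by ring
        exact le_of_mul_le_mul_right h2 p0
    induction k with
    | zero => simp
    | succ k ih =>
      have p1 := (hbpos j).2
      have p2 := (hbpos j).1
      calc b (j + 1) ^ (k + 1) * b j = b (j + 1) * (b (j + 1) ^ k * b j) := by ring
        _ ≤ b (j + 1) * (b j ^ k * b (j + k)) := mul_le_mul_of_nonneg_left ih p1.le
        _ = b j ^ k * (b (j + 1) * b (j + k)) := by ring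
        _ ≤ b j ^ k * (b j * b (j + k + 1)) := mul_le_mul_of_nonneg_left (key k) (pow_nonneg p2.le k)
        _ = b j ^ (k + 1) * b (j + (k + 1)) := by
            have e : j + (k + 1) = j + k + 1 := rfl
            rw [e, pow_succ]
            ring
  have hstep : ∀ j, b (j + 1) ≤ lam ^ 2 * b j := by
    intro j
    by_contra hc
    push Not at hc
    have p0 := (hbpos j).1
    have p1 := (hbpos j).2
    set r := b (j + 1) / b j with hr
    have hr1 : lam ^ 2 < r := by rw [hr, lt_div_iff₀ p0]; exact hc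
    have hr0 : 0 < r := lt_trans (by positivity) hr1
    have hs : lam < Real.sqrt r := Real.lt_sqrt_of_sq_lt hr1
    set ε := (Real.sqrt r - lam) / 2 with hε
    have hε0 : 0 < ε := by rw [hε]; linarith
    set t := lam + ε with ht
    have ht0 : 0 < t := by rw [ht]; positivity
    have hts : t < Real.sqrt r := by rw [ht, hε]; linarith
    have ht2 : t ^ 2 < r := by
      have h1 : t ^ 2 < Real.sqrt r ^ 2 := pow_lt_pow_left₀ hts ht0.le two_ne_zero
      rwa [Real.sq_sqrt hr0.le] at h1
    -- lower bound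
    have hlow : ∀ k, r ^ k * b j ≤ b (j + k) := by
      intro k
      have h1 := hratio j k
      rw [hr, div_pow, div_mul_eq_mul_div, div_le_iff₀ (pow_pos p0 k)]
      linarith
    have hup : ∀ᶠ k : ℕ in Filter.atTop, b (j + k) ≤ t ^ (2 * (j + k)) := by
      have h1 := hq ε hε0
      rw [Filter.eventually_atTop] at h1 ⊢
      obtain ⟨N, hN⟩ := h1
      refine ⟨N, fun k hk => ?_⟩
      have h2 := hN ((j + k) + (j + k)) (by omega)
      have h3 : 2 * (j + k) = (j + k) + (j + k) := by ring
      rw [h3]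
      exact h2
    have hlim : Filter.Tendsto (fun k : ℕ => t ^ (2 * j) / b j * (t ^ 2 / r) ^ k) Filter.atTop (nhds 0) := by
      have h1 := tendsto_pow_atTop_nhds_zero_of_lt_one (r := t ^ 2 / r) (by positivity)
        (by rw [div_lt_one hr0]; exact ht2)
      simpa using h1.const_mul (t ^ (2 * j) / b j)
    have hev := hlim.eventually (gt_mem_nhds (one_pos : (0:ℝ) < 1))
    obtain ⟨k, hk1, hk2⟩ := (hup.and hev).exists
    have h4 := hlow k
    have h5 : r ^ k * b j ≤ t ^ (2 * (j + k)) := h4.trans hk1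
    have h6 : t ^ (2 * j) / b j * (t ^ 2 / r) ^ k * (r ^ k * b j) = t ^ (2 * (j + k)) := by
      rw [div_pow]
      have hrk : r ^ k ≠ 0 := (pow_pos hr0 k).ne'
      field_simp
      ring_nf
    have h7 : t ^ (2 * j) / b j * (t ^ 2 / r) ^ k * (r ^ k * b j) < 1 * (r ^ k * b j) :=
      mul_lt_mul_of_pos_right hk2 (mul_pos (pow_pos hr0 k) p0)
    linarith
  have heven : ∀ j, b (j + 1) ≤ d * lam ^ (2 * j) := by
    intro j
    induction j with
    | zero => rw [zero_add, hb1]; simp
    | succ j ih =>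
      calc b (j + 1 + 1) ≤ lam ^ 2 * b (j + 1) := hstep (j + 1)
        _ ≤ lam ^ 2 * (d * lam ^ (2 * j)) := mul_le_mul_of_nonneg_left ih (by positivity)
        _ = d * lam ^ (2 * (j + 1)) := by ring
  rcases Nat.even_or_odd' m with ⟨j, rfl | rfl⟩
  · have h1 : 2 * j + 2 = (j + 1) + (j + 1) := by ring
    rw [h1]
    exact heven j
  · have h1 := SPEC_cs G (j + 1) (j + 2) v
    have h2 : j + 1 + (j + 2) = 2 * j + 1 + 2 := by ring
    rw [h2] at h1
    have h3 : (wk G (2 * j + 1 + 2) v v : ℝ) ^ 2 ≤ (d * lam ^ (2 * j + 1)) ^ 2 := by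
      refine h1.trans ?_
      calc (wk G (j + 1 + (j + 1)) v v : ℝ) * (wk G (j + 2 + (j + 2)) v v : ℝ)
          ≤ (d * lam ^ (2 * j)) * (d * lam ^ (2 * (j + 1))) :=
            mul_le_mul (heven j) (heven (j + 1)) (Nat.cast_nonneg _) (by positivity)
        _ = (d * lam ^ (2 * j + 1)) ^ 2 := by ring
    exact (pow_le_pow_iff_left₀ (by positivity) (by positivity) two_ne_zero).mp h3

end Pool.Agent.SAWL
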