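import Mathlib
import Pool.Agent.SAWL.Defs
import Pool.Agent.SAWL.MAINA
import Pool.Agent.SAWL.SPEC

set_option autoImplicit false

namespace Pool.Agent.SAWL

open scoped Classical

variable {V : Type}

/-- Explicit bounds for self-avoiding walks and loops in terms of `lam`. -/
theorem mainC (G : SimpleGraph V) (hfin : ∀ v : V, (G.neighborSet v).Finite)
    (htr : ∀ v w : V, ∃ φ : G ≃g G, φ v = w)
    (d : ℕ) (hd : ∀ v, (G.neighborSet v).ncard = d) (lam : ℝ) (hlam : 0 < lam)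
    (hdl : lam ≤ (d : ℝ) - 2 * Real.sqrt d)
    (H : (∀ S : Finset V, S.Nonempty →
        Real.sqrt ((d : ℝ) ^ 2 - lam ^ 2) * (S.card : ℝ) ≤ (bdry G S : ℝ)) ∨
      (∀ v : V, ∀ ε : ℝ, 0 < ε → ∀ᶠ n : ℕ in Filter.atTop, (wk G n v v : ℝ) ≤ (lam + ε) ^ n))
    (v : V) (n : ℕ) :
    (sal G (n + 2) v : ℝ) ≤ d * lam ^ n ∧ (((d : ℝ) + lam) / 2) ^ n ≤ (saw G n v : ℝ) := by
  let : G.LocallyFinite := fun v => (hfin v).fintype
  have hdeg : ∀ v, G.degree v = d := by
    intro v
    rw [← SimpleGraph.card_neighborSet_eq_degree, ← hd v, Set.ncard_eq_toFinset_card',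
      Set.toFinset_card]
  set s := Real.sqrt d with hs
  have hs0 : 0 ≤ s := Real.sqrt_nonneg _
  have hs2 : s ^ 2 = d := Real.sq_sqrt (Nat.cast_nonneg d)
  have hdpos : (0 : ℝ) < d := by linarith
  have hd1 : 1 ≤ d := by
    have : 0 < d := by exact_mod_cast hdpos
    omega
  have hspos : 0 < s := Real.sqrt_pos.mpr hdpos
  have hld : lam < d := by linarith
  have hcl : ∀ m : ℕ, (wk G (m + 2) v v : ℝ) ≤ d * lam ^ m := by
    rcases H with H | H
    · have hpos : 0 ≤ (d : ℝ) ^ 2 - lam ^ 2 := by nlinarith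
      have hq : ∀ (S : Finset V) (f : V → ℝ), (∀ x, x ∉ S → f x = 0) →
          |∑ x ∈ S, f x * ∑ y ∈ G.neighborFinset x, f y| ≤ lam * ∑ x ∈ S, f x ^ 2 := by
        intro S f hf
        have h1 := cheeger G d hdeg _ (Real.sqrt_nonneg _) H S f hf
        rw [Real.sq_sqrt hpos] at h1
        have h3 : (d : ℝ) ^ 2 - ((d : ℝ) ^ 2 - lam ^ 2) = lam ^ 2 := by ring
        rw [h3, ← mul_pow] at h1
        have h2 : 0 ≤ lam * ∑ x ∈ S, f x ^ 2 :=
          mul_nonneg hlam.le (Finset.sum_nonneg fun _ _ => sq_nonneg _)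
        exact abs_le_of_sq_le_sq h1 h2
      exact closed_walk_le G d hdeg lam hlam hq v
    · exact closed_walk_le_spec G d v (hdeg v) hd1 lam hlam (H v)
  refine ⟨le_trans (by exact_mod_cast sal_le_wk G (n + 2) v) (hcl n), ?_⟩
  set b := ((d : ℝ) + lam) / 2 with hb
  revert n
  refine growth (fun n => (saw G n v : ℝ)) (fun n => (wk G n v v : ℝ)) d lam b ?_ ?_ ?_ hlam.le
    ?_ ?_ hcl ?_
  · simp [saw_zero]
  · intro n; positivity
  · positivity
  · rw [hb]; linarith
  · rw [hb]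
    have h1 : s ≤ (d - lam) / 2 := by linarith
    have h2 : s ^ 2 ≤ ((d - lam) / 2) ^ 2 := by
      apply pow_le_pow_left₀ hs0 h1
    rw [hs2] at h2
    calc (d : ℝ) ≤ ((d - lam) / 2) ^ 2 := h2
      _ = _ := by ring
  · intro n
    have h1 := saw_rec G n v
    have h2 : ∑ x ∈ G.neighborFinset v, saw G n x = d * saw G n v := by
      have h3 : ∀ x ∈ G.neighborFinset v, saw G n x = saw G n v := by
        intro x _
        obtain ⟨φ, hφ⟩ := htr v x
        rw [← hφ]
        exact saw_iso G φ n v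
      rw [Finset.sum_congr rfl h3, Finset.sum_const, SimpleGraph.card_neighborFinset_eq_degree,
        hdeg, smul_eq_mul]
    rw [h2] at h1
    have h4 : ((d * saw G n v : ℕ) : ℝ) ≤
        ((saw G (n + 1) v + ∑ j ∈ Finset.Icc 1 n, wk G (j + 1) v v * saw G (n - j) v : ℕ) : ℝ) := by
      exact_mod_cast h1
    push_cast at h4
    exact h4

end Pool.Agent.SAWL
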