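import Mathlib
import Pool.Agent.SAWL.Defs
import Pool.Agent.SAWL.INV

set_option autoImplicit false

namespace Pool.Agent.SAWL

open scoped Classical

variable {V : Type}

theorem BALL_self (G : SimpleGraph V) (k : ℕ) (v : V) : v ∈ ball G k v := by
  simp [ball]

theorem BALL_mono (G : SimpleGraph V) (k : ℕ) (v : V) : ball G k v ⊆ ball G (k + 1) v := by
  intro x hx
  simp only [ball, Set.mem_setOf_eq] at hx ⊢
  omega

theorem BALL_step (G : SimpleGraph V) (hc : G.Connected) (k : ℕ) (v x : V)
    (hx : x ∈ ball G (k + 1) v) : x ∈ ball G k v ∨ ∃ y ∈ ball G k v, G.Adj y x := by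
  obtain ⟨p, hp⟩ := (hc x v).exists_walk_length_eq_dist
  simp only [ball, Set.mem_setOf_eq] at hx
  rw [SimpleGraph.dist_comm] at hx
  rw [← hp] at hx
  cases p with
  | nil => exact Or.inl (BALL_self G k v)
  | @cons _ y _ h q =>
    right
    refine ⟨y, ?_, h.symm⟩
    simp only [ball, Set.mem_setOf_eq]
    rw [SimpleGraph.dist_comm]
    have h1 := SimpleGraph.dist_le q
    rw [SimpleGraph.Walk.length_cons] at hx
    omega

theorem BALL_zero (G : SimpleGraph V) (hc : G.Connected) (v : V) : ball G 0 v = {v} := by
  ext x
  simp only [ball, Set.mem_setOf_eq, Set.mem_singleton_iff, Nat.le_zero]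
  rw [hc.dist_eq_zero_iff]
  exact eq_comm

theorem ball_finite (G : SimpleGraph V) (hc : G.Connected) (hfin : ∀ v : V, (G.neighborSet v).Finite)
    (k : ℕ) (v : V) : (ball G k v).Finite := by
  induction k with
  | zero =>
    rw [BALL_zero G hc v]
    exact Set.finite_singleton v
  | succ k ih =>
    apply Set.Finite.subset (ih.union (ih.biUnion (fun y _ => hfin y)))
    intro x hx
    rcases BALL_step G hc k v x hx with h | ⟨y, hy, hyx⟩
    · exact Or.inl h
    · right
      simp only [Set.mem_iUnion]
      exact ⟨y, hy, hyx⟩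

theorem ball_iso (G : SimpleGraph V) (φ : G ≃g G) (k : ℕ) (v : V) :
    (ball G k (φ v)).ncard = (ball G k v).ncard := by
  have h : ball G k (φ v) = φ '' ball G k v := by
    ext x
    simp only [ball, Set.mem_setOf_eq, Set.mem_image]
    constructor
    · intro hx
      obtain ⟨y, rfl⟩ := φ.surjective x
      refine ⟨y, ?_, rfl⟩
      rwa [dist_iso] at hx
    · rintro ⟨y, hy, rfl⟩
      rwa [dist_iso]
  rw [h, Set.ncard_image_of_injective _ φ.injective]

theorem ball_succ_le (G : SimpleGraph V) (hc : G.Connected)
    (hfin : ∀ v : V, (G.neighborSet v).Finite) (d : ℕ) (hd : ∀ v, (G.neighborSet v).ncard = d)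
    (k : ℕ) (v : V) : (ball G (k + 1) v).ncard ≤ (d + 1) * (ball G k v).ncard := by
  set B : Finset V := (ball_finite G hc hfin k v).toFinset with hB
  set N : V → Finset V := fun y => (hfin y).toFinset with hN
  have hNc : ∀ y, (N y).card = d := by
    intro y
    rw [hN, ← Set.ncard_eq_toFinset_card _ (hfin y)]
    exact hd y
  have hBc : (ball G k v).ncard = B.card := Set.ncard_eq_toFinset_card _ _
  have hsub : ball G (k + 1) v ⊆ ((B ∪ B.biUnion N : Finset V) : Set V) := by
    intro x hx
    rw [Finset.mem_coe, Finset.mem_union]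
    rcases BALL_step G hc k v x hx with h | ⟨y, hy, hyx⟩
    · left
      rw [hB, Set.Finite.mem_toFinset]
      exact h
    · right
      rw [Finset.mem_biUnion]
      refine ⟨y, ?_, ?_⟩
      · rw [hB, Set.Finite.mem_toFinset]
        exact hy
      · rw [hN, Set.Finite.mem_toFinset]
        exact hyx
  have h1 : (ball G (k + 1) v).ncard ≤ (B ∪ B.biUnion N).card := by
    rw [← Set.ncard_coe_finset]
    exact Set.ncard_le_ncard hsub (Finset.finite_toSet _)
  have h2 : (B.biUnion N).card ≤ B.card * d :=
    Finset.card_biUnion_le_card_mul B N d (fun y _ => (hNc y).le)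
  have h3 := Finset.card_union_le B (B.biUnion N)
  rw [hBc]
  nlinarith

theorem ball_ge (G : SimpleGraph V) (hc : G.Connected)
    (hfin : ∀ v : V, (G.neighborSet v).Finite) [Infinite V] (k : ℕ) (v : V) :
    k + 1 ≤ (ball G k v).ncard := by
  induction k with
  | zero =>
    rw [BALL_zero G hc v, Set.ncard_singleton]
  | succ k ih =>
    have hlt : (ball G k v).ncard < (ball G (k + 1) v).ncard := by
      apply Set.ncard_lt_ncard _ (ball_finite G hc hfin (k + 1) v)
      refine ⟨BALL_mono G k v, ?_⟩
      intro hsub
      have hclosed : ∀ y x : V, G.Adj y x → y ∈ ball G k v → x ∈ ball G k v := by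
        intro y x hyx hy
        apply hsub
        simp only [ball, Set.mem_setOf_eq] at hy ⊢
        have h1 := hc.dist_triangle (u := v) (v := y) (w := x)
        have h2 : G.dist y x = 1 := SimpleGraph.dist_eq_one_iff_adj.mpr hyx
        omega
      have hall : ∀ (u w : V) (p : G.Walk u w), u ∈ ball G k v → w ∈ ball G k v := by
        intro u w p
        induction p with
        | nil => exact fun h => h
        | cons h q ih2 => exact fun hu => ih2 (hclosed _ _ h hu)
      have huniv : ball G k v = Set.univ := by
        ext x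
        simp only [Set.mem_univ, iff_true]
        obtain ⟨p⟩ := hc v x
        exact hall v x p (BALL_self G k v)
      have hf := ball_finite G hc hfin k v
      rw [huniv] at hf
      exact Set.infinite_univ hf
    omega

end Pool.Agent.SAWL
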