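import Mathlib
import Pool.Agent.SAWL.Defs
import Pool.Agent.SAWL.BALL

set_option autoImplicit false

namespace Pool.Agent.SAWL

open scoped Classical

variable {V : Type}

theorem ISO_out_finite (G : SimpleGraph V) (hfin : ∀ v : V, (G.neighborSet v).Finite)
    (S : Finset V) :
    ({p : V × V | p.1 ∈ S ∧ p.2 ∉ S ∧ G.Adj p.1 p.2} : Set (V × V)).Finite := by
  refine ((S.finite_toSet.biUnion (t := fun x => (fun y => (x, y)) '' (G.neighborSet x))
    (fun x _ => (hfin x).image _))).subset ?_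
  rintro ⟨x, y⟩ ⟨h1, -, h3⟩
  simp only [Set.mem_iUnion]
  exact ⟨x, h1, y, h3, rfl⟩

theorem ISO_pw_nbr_finite (G : SimpleGraph V) (hc : G.Connected)
    (hfin : ∀ v : V, (G.neighborSet v).Finite) (k : ℕ) (v : V) :
    ((pw G k).neighborSet v).Finite :=
  (ball_finite G hc hfin k v).subset (fun _ hy => hy.2)

/-- Isoperimetric inequality for powers: look at the pairs `(x, x')` joined by an edge leaving `S`
and at the points `y` of the ball of radius `k` about `x'`. -/
theorem pw_iso (G : SimpleGraph V) (hc : G.Connected) (hfin : ∀ v : V, (G.neighborSet v).Finite)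
    (d : ℕ) (hd : ∀ v, (G.neighborSet v).ncard = d) (h : ℝ)
    (iso : ∀ S : Finset V, S.Nonempty → h * (S.card : ℝ) ≤ (bdry G S : ℝ))
    (k b : ℕ) (hb : ∀ v, (ball G k v).ncard = b) (S : Finset V) (hS : S.Nonempty) :
    h * b * (S.card : ℝ) ≤ 2 * d * (bdry (pw G (k + 1)) S : ℝ) := by
  have hPf := ISO_out_finite G hfin S
  have hBf := ISO_out_finite (pw G (k + 1)) (ISO_pw_nbr_finite G hc hfin (k + 1)) S
  have hPc : bdry G S = hPf.toFinset.card := Set.ncard_eq_toFinset_card _ hPf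
  have hBc : bdry (pw G (k + 1)) S = hBf.toFinset.card := Set.ncard_eq_toFinset_card _ hBf
  set PF := hPf.toFinset with hPF
  set BF := hBf.toFinset with hBF
  set T : Finset (Σ _ : V × V, V) :=
    PF.sigma (fun p => (ball_finite G hc hfin k p.2).toFinset) with hT
  have hTc : T.card = PF.card * b := by
    rw [hT, Finset.card_sigma, Finset.sum_const_nat (m := b)]
    intro p _
    exact (Set.ncard_eq_toFinset_card _ (ball_finite G hc hfin k p.2)).symm.trans (hb _)
  have hmemT : ∀ t : (Σ _ : V × V, V), t ∈ T →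
      t.1.1 ∈ S ∧ t.1.2 ∉ S ∧ G.Adj t.1.1 t.1.2 ∧ G.dist t.1.2 t.2 ≤ k := by
    intro t ht
    rw [hT, Finset.mem_sigma, hPF, Set.Finite.mem_toFinset, Set.Finite.mem_toFinset] at ht
    exact ⟨ht.1.1, ht.1.2.1, ht.1.2.2, ht.2⟩
  have h1 : (T.filter (fun t => t.2 ∉ S)).card
      ≤ (BF.sigma (fun q => (hfin q.1).toFinset) : Finset (Σ _ : V × V, V)).card := by
    refine Finset.card_le_card_of_injOn
      (fun t => (⟨(t.1.1, t.2), t.1.2⟩ : Σ _ : V × V, V)) ?_ ?_
    · intro t ht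
      rw [Finset.mem_coe, Finset.mem_filter] at ht
      obtain ⟨a1, a2, a3, a4⟩ := hmemT t ht.1
      rw [Finset.mem_coe, Finset.mem_sigma, hBF, Set.Finite.mem_toFinset,
        Set.Finite.mem_toFinset]
      refine ⟨⟨a1, ht.2, ?_, ?_⟩, a3⟩
      · intro h
        have h' : t.1.1 = t.2 := h
        exact ht.2 (h' ▸ a1)
      · have e1 : G.dist t.1.1 t.1.2 = 1 := SimpleGraph.dist_eq_one_iff_adj.2 a3
        have e2 := hc.dist_triangle (u := t.1.1) (v := t.1.2) (w := t.2)
        show G.dist t.1.1 t.2 ≤ k + 1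
        omega
    · rintro ⟨⟨a, b⟩, c⟩ _ ⟨⟨a', b'⟩, c'⟩ _ h
      simp only [Sigma.mk.injEq, Prod.mk.injEq, heq_eq_eq] at h
      obtain ⟨⟨rfl, rfl⟩, rfl⟩ := h
      rfl
  have h2 : (T.filter (fun t => ¬ t.2 ∉ S)).card
      ≤ (BF.sigma (fun q => (hfin q.2).toFinset) : Finset (Σ _ : V × V, V)).card := by
    refine Finset.card_le_card_of_injOn
      (fun t => (⟨(t.2, t.1.2), t.1.1⟩ : Σ _ : V × V, V)) ?_ ?_
    · intro t ht
      rw [Finset.mem_coe, Finset.mem_filter, not_not] at ht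
      obtain ⟨a1, a2, a3, a4⟩ := hmemT t ht.1
      rw [Finset.mem_coe, Finset.mem_sigma, hBF, Set.Finite.mem_toFinset,
        Set.Finite.mem_toFinset]
      refine ⟨⟨ht.2, a2, ?_, ?_⟩, a3.symm⟩
      · intro h
        have h' : t.2 = t.1.2 := h
        exact a2 (h' ▸ ht.2)
      · show G.dist t.2 t.1.2 ≤ k + 1
        rw [SimpleGraph.dist_comm]
        omega
    · rintro ⟨⟨a, b⟩, c⟩ _ ⟨⟨a', b'⟩, c'⟩ _ h
      simp only [Sigma.mk.injEq, Prod.mk.injEq, heq_eq_eq] at h
      obtain ⟨⟨rfl, rfl⟩, rfl⟩ := h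
      rfl
  have hs1 : (BF.sigma (fun q => (hfin q.1).toFinset) : Finset (Σ _ : V × V, V)).card
      = BF.card * d := by
    rw [Finset.card_sigma, Finset.sum_const_nat (m := d)]
    intro p _
    exact (Set.ncard_eq_toFinset_card _ (hfin p.1)).symm.trans (hd _)
  have hs2 : (BF.sigma (fun q => (hfin q.2).toFinset) : Finset (Σ _ : V × V, V)).card
      = BF.card * d := by
    rw [Finset.card_sigma, Finset.sum_const_nat (m := d)]
    intro p _
    exact (Set.ncard_eq_toFinset_card _ (hfin p.2)).symm.trans (hd _)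
  have hsum : (T.filter (fun t => t.2 ∉ S)).card + (T.filter (fun t => ¬ t.2 ∉ S)).card = T.card :=
    Finset.card_filter_add_card_filter_not _
  have hfinal : PF.card * b ≤ 2 * d * BF.card := by
    rw [← hTc, ← hsum]
    rw [hs1] at h1
    rw [hs2] at h2
    calc _ ≤ BF.card * d + BF.card * d := add_le_add h1 h2
      _ = 2 * d * BF.card := by ring
  have hfinal' : (PF.card : ℝ) * b ≤ 2 * d * (BF.card : ℝ) := by exact_mod_cast hfinal
  have hiso := iso S hS
  rw [hPc] at hiso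
  rw [hBc]
  calc h * b * (S.card : ℝ) = (h * (S.card : ℝ)) * b := by ring
    _ ≤ (PF.card : ℝ) * b := mul_le_mul_of_nonneg_right hiso (Nat.cast_nonneg b)
    _ ≤ 2 * d * (BF.card : ℝ) := hfinal'

end Pool.Agent.SAWL
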