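import Mathlib
import Pool.Agent.SAWL.Defs
import Pool.Agent.SAWL.BALL

set_option autoImplicit false

namespace Pool.Agent.SAWL

open scoped Classical

variable {V : Type}

theorem pw_connected (G : SimpleGraph V) (hc : G.Connected) (k : ℕ) (hk : 1 ≤ k) :
    (pw G k).Connected := by
  refine hc.mono ?_
  intro x y h
  refine ⟨h.ne, ?_⟩
  rw [SimpleGraph.dist_eq_one_iff_adj.2 h]
  exact hk

theorem pw_neighborSet (G : SimpleGraph V) (k : ℕ) (v : V) :
    (pw G k).neighborSet v = ball G k v \ {v} := by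
  ext x
  simp only [SimpleGraph.mem_neighborSet, pw, ball, Set.mem_sdiff, Set.mem_ofPred_eq,
    Set.mem_singleton_iff]
  constructor
  · rintro ⟨h1, h2⟩
    exact ⟨h2, fun h => h1 h.symm⟩
  · rintro ⟨h1, h2⟩
    exact ⟨fun h => h2 h.symm, h1⟩

theorem pw_finite (G : SimpleGraph V) (hc : G.Connected) (hfin : ∀ v : V, (G.neighborSet v).Finite)
    (k : ℕ) (v : V) : ((pw G k).neighborSet v).Finite := by
  rw [pw_neighborSet]
  exact (ball_finite G hc hfin k v).subset Set.sdiff_subset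

theorem pw_ncard (G : SimpleGraph V) (hc : G.Connected) (hfin : ∀ v : V, (G.neighborSet v).Finite)
    (k : ℕ) (v : V) : ((pw G k).neighborSet v).ncard + 1 = (ball G k v).ncard := by
  rw [pw_neighborSet]
  refine Set.ncard_sdiff_singleton_add_one ?_ (ball_finite G hc hfin k v)
  simp [ball]

theorem pw_trans (G : SimpleGraph V) (htr : ∀ v w : V, ∃ φ : G ≃g G, φ v = w) (k : ℕ) :
    ∀ v w : V, ∃ φ : pw G k ≃g pw G k, φ v = w := by
  intro v w
  obtain ⟨φ, hφ⟩ := htr v w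
  have hdist : ∀ x y, G.dist (φ x) (φ y) = G.dist x y := dist_iso G φ
  refine ⟨⟨φ.toEquiv, ?_⟩, hφ⟩
  intro x y
  show (φ x ≠ φ y ∧ G.dist (φ x) (φ y) ≤ k) ↔ (x ≠ y ∧ G.dist x y ≤ k)
  rw [hdist, φ.injective.ne_iff]

end Pool.Agent.SAWL
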