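import Mathlib
import Pool.Agent.SAWL.Defs
import Pool.Agent.SAWL.MAINA
import Pool.Agent.SAWL.PW
import Pool.Agent.SAWL.ISO

set_option autoImplicit false

namespace Pool.Agent.SAWL

open scoped Classical

variable {V : Type}

/-- All large powers. -/
theorem mainB (G : SimpleGraph V) (hc : G.Connected) (hfin : ∀ v : V, (G.neighborSet v).Finite)
    (htr : ∀ v w : V, ∃ φ : G ≃g G, φ v = w)
    (hiso : ∃ c : ℝ, 0 < c ∧ ∀ S : Finset V, S.Nonempty → c * (S.card : ℝ) ≤ (bdry G S : ℝ)) :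
    ∃ k₀ : ℕ, ∀ k : ℕ, k₀ ≤ k →
      (pw G k).Connected ∧ (∀ v : V, ((pw G k).neighborSet v).Finite) ∧
      (∀ v w : V, ∃ φ : pw G k ≃g pw G k, φ v = w) ∧
      (∃ c : ℝ, 0 < c ∧ ∀ S : Finset V, S.Nonempty → c * (S.card : ℝ) ≤ (bdry (pw G k) S : ℝ)) ∧
      ∀ v : V, ∃ a b : ℝ, 0 ≤ a ∧ a < b ∧
        (∀ᶠ n : ℕ in Filter.atTop, (sal (pw G k) n v : ℝ) ≤ a ^ n) ∧
        (∀ᶠ n : ℕ in Filter.atTop, b ^ n ≤ (saw (pw G k) n v : ℝ)) := by
  obtain ⟨c, hc0, iso⟩ := hiso
  obtain ⟨v0⟩ := hc.nonempty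
  haveI hinf : Infinite V := by
    by_contra hfi
    rw [not_infinite_iff_finite] at hfi
    haveI := Fintype.ofFinite V
    have h1 := iso Finset.univ ⟨v0, Finset.mem_univ _⟩
    have h2 : bdry G (Finset.univ : Finset V) = 0 := by
      unfold bdry
      have : ({p : V × V | p.1 ∈ (Finset.univ : Finset V) ∧ p.2 ∉ (Finset.univ : Finset V) ∧
          G.Adj p.1 p.2} : Set (V × V)) = ∅ := by
        ext p
        simp
      rw [this, Set.ncard_empty]
    rw [h2] at h1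
    have h3 : 0 < (Finset.univ : Finset V).card := Finset.card_pos.mpr ⟨v0, Finset.mem_univ _⟩
    have h4 : (0 : ℝ) < ((Finset.univ : Finset V).card : ℝ) := by exact_mod_cast h3
    push_cast at h1
    nlinarith
  set d := (G.neighborSet v0).ncard with hddef
  have hd : ∀ v, (G.neighborSet v).ncard = d := by
    intro v
    obtain ⟨φ, hφ⟩ := htr v0 v
    rw [← hφ, degree_iso]
  have hd1 : 1 ≤ d := by
    letI : G.LocallyFinite := fun v => (hfin v).fintype
    have hdeg : ∀ v, G.degree v = d := by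
      intro v
      rw [← SimpleGraph.card_neighborSet_eq_degree, ← hd v, Set.ncard_eq_toFinset_card',
        Set.toFinset_card]
    have h1 := MAINA_h_le G d hdeg c hc0 iso v0
    have h2 : (0 : ℝ) < d := by linarith
    exact_mod_cast h2
  have hdR : (1 : ℝ) ≤ d := by exact_mod_cast hd1
  have hball : ∀ k v, (ball G k v).ncard = (ball G k v0).ncard := by
    intro k v
    obtain ⟨φ, hφ⟩ := htr v0 v
    rw [← hφ, ball_iso]
  set κ : ℝ := c / (2 * d * (d + 1)) with hκ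
  have hκ0 : 0 < κ := by rw [hκ]; positivity
  obtain ⟨K, hK⟩ := exists_nat_ge (16 / κ ^ 4)
  refine ⟨max 1 K, fun k hk => ?_⟩
  have hk1 : 1 ≤ k := le_trans (le_max_left _ _) hk
  have hkK : K ≤ k := le_trans (le_max_right _ _) hk
  obtain ⟨j, rfl⟩ : ∃ j, k = j + 1 := ⟨k - 1, by omega⟩
  set B : ℕ := (ball G j v0).ncard with hB
  have hBge : j + 1 ≤ B := ball_ge G hc hfin j v0
  have hBpos : (0 : ℝ) < B := by
    have : 0 < B := by omega
    exact_mod_cast this
  set h' : ℝ := c * B / (2 * d) with hh'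
  have hh'0 : 0 < h' := by rw [hh']; positivity
  have iso' : ∀ S : Finset V, S.Nonempty → h' * (S.card : ℝ) ≤ (bdry (pw G (j + 1)) S : ℝ) := by
    intro S hS
    have h1 := pw_iso G hc hfin d hd c iso j B (fun v => hball j v) S hS
    rw [hh', div_mul_eq_mul_div, div_le_iff₀ (by positivity)]
    linarith
  have htr' := pw_trans G htr (j + 1)
  have hfin' := fun v => pw_finite G hc hfin (j + 1) v
  set D : ℕ := ((pw G (j + 1)).neighborSet v0).ncard with hD
  have hDall : ∀ v, ((pw G (j + 1)).neighborSet v).ncard = D := by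
    intro v
    obtain ⟨φ, hφ⟩ := htr' v0 v
    rw [← hφ, degree_iso]
  have hDle : D + 1 ≤ (d + 1) * B := by
    rw [hD, pw_ncard G hc hfin (j + 1) v0]
    exact ball_succ_le G hc hfin d hd j v0
  refine ⟨pw_connected G hc (j + 1) (by omega), hfin', htr', ⟨h', hh'0, iso'⟩, fun v => ?_⟩
  refine mainA (pw G (j + 1)) hfin' htr' D hDall h' hh'0 iso' ?_ v
  set M : ℝ := (d + 1) * B with hM
  have hM0 : 0 < M := by rw [hM]; positivity
  have hDM : (D : ℝ) ≤ M := by
    have : ((D + 1 : ℕ) : ℝ) ≤ (((d + 1) * B : ℕ) : ℝ) := by exact_mod_cast hDle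
    push_cast at this
    rw [hM]
    linarith
  have hhM : h' = κ * M := by
    rw [hh', hκ, hM]
    field_simp
  have hsqM : Real.sqrt D ≤ Real.sqrt M := Real.sqrt_le_sqrt hDM
  have hMbig : 16 / κ ^ 4 ≤ M := by
    have h1 : (K : ℝ) ≤ ((j + 1 : ℕ) : ℝ) := by exact_mod_cast hkK
    have h2 : ((j + 1 : ℕ) : ℝ) ≤ (B : ℝ) := by exact_mod_cast hBge
    have h3 : (B : ℝ) ≤ M := by
      rw [hM]
      nlinarith
    linarith
  have hsM : 4 / κ ^ 2 ≤ Real.sqrt M := by
    apply Real.le_sqrt_of_sq_le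
    calc (4 / κ ^ 2) ^ 2 = 16 / κ ^ 4 := by field_simp; norm_num
      _ ≤ M := hMbig
  have hs0 : 0 ≤ Real.sqrt M := Real.sqrt_nonneg _
  have hsq : Real.sqrt M ^ 2 = M := Real.sq_sqrt hM0.le
  have hD0 : (0 : ℝ) ≤ D := Nat.cast_nonneg _
  calc 4 * (D : ℝ) * (Real.sqrt D - 1) ≤ 4 * D * Real.sqrt D := by nlinarith
    _ ≤ 4 * M * Real.sqrt M := by
        have : (D : ℝ) * Real.sqrt D ≤ M * Real.sqrt M :=
          mul_le_mul hDM hsqM (Real.sqrt_nonneg _) hM0.le
        linarith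
    _ ≤ (κ ^ 2 * Real.sqrt M) * (M * Real.sqrt M) := by
        have h4 : 4 ≤ κ ^ 2 * Real.sqrt M := by
          rw [div_le_iff₀ (by positivity)] at hsM
          linarith
        have h5 : 0 ≤ M * Real.sqrt M := by positivity
        nlinarith
    _ = h' ^ 2 := by
        rw [hhM]
        calc (κ ^ 2 * Real.sqrt M) * (M * Real.sqrt M) = κ ^ 2 * M * Real.sqrt M ^ 2 := by ring
          _ = (κ * M) ^ 2 := by rw [hsq]; ring

end Pool.Agent.SAWL
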